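import Pool.Agent.N808.PR.Cls
import Pool.Agent.N98.Abs
import Pool.Agent.N762.FP.Cls

/-!
Varieties of bounded degree over number fields, fibred over the projective line; varieties of
bounded degree over perfect fields, fibred over the plane.

helper808; built on the library of helper98.
-/

set_option autoImplicit false
set_option linter.unusedVariables false
set_option linter.unusedSectionVars false

open MvPolynomial Pool.Agent.N98 Pool.Agent.N808.RC

namespace Pool.Agent.N808.PR

section abs

variable {R k K : Type} [CommRing R] [IsDedekindDomain R] [Field k] [CharZero k] [Algebra R k]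
  [IsFractionRing R k] [Field K] [Algebra k K] {N : ℕ} (x : Fin N → K)

/-- Rational function fields in one variable. -/
lemma line_field (u : Fin 1 → K) (hu : AlgebraicIndependent k u) [Algebra R K]
    [IsScalarTower R k K] [Algebra R (IntermediateField.adjoin k (Set.range u))]
    [IsScalarTower R k (IntermediateField.adjoin k (Set.range u))] :
    RM.HasRM R (IntermediateField.adjoin k (Set.range u)) := by
  let E := IntermediateField.adjoin k (Set.range u)
  let t : E := ⟨u 0, IntermediateField.subset_adjoin k _ ⟨0, rfl⟩⟩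
  have ht : Transcendental k t := by
    intro h
    have h1 : IsAlgebraic k (u 0) := by
      have := h.algHom E.val
      exact this
    exact (hu.transcendental 0) h1
  have htop : IntermediateField.adjoin k {t} = ⊤ := by
    apply IntermediateField.map_injective E.val
    rw [IntermediateField.adjoin_map, ← AlgHom.fieldRange_eq_map,
      IntermediateField.fieldRange_val]
    have h1 : E.val '' {t} = Set.range u := by
      rw [Set.image_singleton]
      ext y
      constructor
      · rintro rfl
        exact ⟨0, rfl⟩
      · rintro ⟨i, rfl⟩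
        rw [Subsingleton.elim i 0]
        rfl
    rw [h1]
  exact Pool.Agent.N808.AS.hasRM_line R k E t ht htop

/-- **Varieties of bounded degree** over number fields. -/
theorem abs_rmk (htop : IntermediateField.adjoin k (Set.range x) = ⊤)
    (r : ℕ) (hr : 1 ≤ r) (htr : Algebra.trdeg k K = r) (δ C0 d : ℕ) (hd : 1 ≤ d)
    (hδ : ∀ t : ℕ, r.factorial * Module.finrank k (img k x t) ≤ δ * (t + C0) ^ r)
    (hchar : IsUnit ((Nat.factorial ((d * δ) ^ 2 ^ (r - 1)) : ℕ) : R)) :
    RMk R k {z : K | ∃ G : MvPolynomial (Fin N) k, G.totalDegree ≤ d ∧ z = aeval x G} := by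
  classical
  let _ : Algebra R K := ((algebraMap k K).comp (algebraMap R k)).toAlgebra
  have hs1 : IsScalarTower R k K := IsScalarTower.of_algebraMap_eq fun _ => rfl
  intro B _ h hh
  choose P hPd hP using fun b => (hh b).1
  have hb : ∀ b, aeval x (P b) ≠ 0 := by
    intro b
    rw [← hP b]
    exact (hh b).2
  have hδ1 := one_le_of_growth x r δ C0 hδ
  have hD1 : 1 ≤ d * δ := Nat.mul_pos hd hδ1
  have hδD : δ ≤ d * δ := Nat.le_mul_of_pos_left δ hd
  have hcard : Fintype.card (Fin (r - 1) ⊕ Fin 1) = r := by
    rw [Fintype.card_sum, Fintype.card_fin, Fintype.card_fin]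
    omega
  obtain ⟨v, hv, hvx⟩ := exists_basis x htop r htr hcard
  let u : Fin 1 → K := fun i => v (Sum.inr i)
  let w : Fin (r - 1) → K := fun i => v (Sum.inl i)
  have hvuw : v = Sum.elim w u := by
    funext i
    rcases i with i | i <;> rfl
  let E := IntermediateField.adjoin k (Set.range u)
  let _ : Algebra R E := ((algebraMap k E).comp (algebraMap R k)).toAlgebra
  have hs2 : IsScalarTower R k E := IsScalarTower.of_algebraMap_eq fun _ => rfl
  have hs3 : IsScalarTower R E K := IsScalarTower.of_algebraMap_eq fun _ => rfl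
  have hE : RM.HasRM R E := line_field u (hv.comp _ Sum.inr_injective)
  have hinf : Infinite E := Infinite.of_injective _ (algebraMap k E).injective
  have hw : AlgebraicIndependent E w := by
    rw [hvuw] at hv
    exact ind_field u w hv
  let z : Fin (r - 1) ⊕ Fin 1 → MvPolynomial (Fin (r - 1)) E :=
    Sum.elim X fun i => C ⟨u i, IntermediateField.subset_adjoin k _ ⟨i, rfl⟩⟩
  have htopE : IntermediateField.adjoin E (Set.range x) = ⊤ := by
    rw [eq_top_iff]
    intro y _
    have h1 : y ∈ IntermediateField.adjoin k (Set.range x) := by rw [htop]; trivial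
    have h2 : IntermediateField.adjoin k (Set.range x) ≤
        (IntermediateField.adjoin E (Set.range x)).restrictScalars k := by
      rw [IntermediateField.adjoin_le_iff]
      intro y hy
      exact IntermediateField.subset_adjoin E _ hy
    exact h2 h1
  obtain ⟨y, F, W, H, hytop, hF, hFd, hker, hWd, hW, hHd, hH⟩ := spz_poly (k0 := k) (E := E) x v w
    z htopE hv
    (fun i => by
      obtain ⟨j, hj⟩ := hvx i
      rw [hj]
      exact x_mem_img x j) hw
    (by
      rintro (i | i)
      · exact aeval_X _ _
      · exact aeval_C _ _)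
    (by
      rintro (i | i)
      · exact (totalDegree_X (R := E) i).le
      · exact (totalDegree_C _).trans_le (Nat.zero_le _)) δ C0
    (by rw [hcard]; exact hδ) (Nat.cast_ne_zero.2 (Nat.factorial_ne_zero _)) d B
    (fun b => map (algebraMap k E) (P b))
    (fun b => (Finset.sup_mono (support_map_subset _ _)).trans (hPd b))
  have hPe : ∀ b, aeval x (map (algebraMap k E) (P b)) = aeval x (P b) := fun b =>
    aeval_map_algebraMap E x (P b)
  obtain ⟨T, I, hT, hI, M, hFr, hM⟩ := RM.hyp (n := r - 1 + 1) hE (d * δ) hD1 hchar y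
    hytop F hF (hFd.trans hδD) hker (Option B) (fun o => o.elim W H)
    (by
      rintro (_ | b)
      · exact hW
      · change aeval y (H b) ≠ 0
        rw [hH b, hPe b]
        exact mul_ne_zero (hb b) (pow_ne_zero _ hW))
    (by
      rintro (_ | b)
      · exact hWd.trans hδD
      · exact hHd b)
  refine ⟨T, I, hT, hI, M, hFr, fun b => ?_⟩
  have h1 : h b = aeval y (H b) * (aeval y W ^ d)⁻¹ := by
    rw [hP b, hH b, hPe b, mul_assoc, mul_inv_cancel₀ (pow_ne_zero _ hW), mul_one]
  rw [h1]
  exact (hM (some b)).mul ((hM none).pow d).inv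

end abs

/-- **Varieties of bounded degree** over perfect fields. -/
theorem mod_abs {k K : Type} [Field k] [PerfectField k] [Field K] [Algebra k K] {N : ℕ}
    (x : Fin N → K) (htop : IntermediateField.adjoin k (Set.range x) = ⊤)
    (r : ℕ) (hr : 2 ≤ r) (htr : Algebra.trdeg k K = r) (δ C0 d : ℕ) (hd : 1 ≤ d)
    (hδ : ∀ t : ℕ, r.factorial * Module.finrank k (img k x t) ≤ δ * (t + C0) ^ r)
    (hchar : ((Nat.factorial ((d * δ) ^ 2 ^ (r - 2)) : ℕ) : k) ≠ 0) :
    Pool.Agent.N762.FP.Mod k {z : K | ∃ G : MvPolynomial (Fin N) k, G.totalDegree ≤ d ∧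
      z = aeval x G} := by
  intro B _ b hb hb0
  choose P hPd hP using hb
  obtain ⟨T, I, hT, hI, M, hFr, hM⟩ := abs_models_poly x htop r hr htr δ C0 d hd hδ hchar B P hPd
    (fun i => by rw [← hP i]; exact hb0 i)
  refine ⟨T, I, hT, hI, M, hFr, fun i => ?_⟩
  rw [hP i]
  exact hM i

end Pool.Agent.N808.PR
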