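import Pool.Agent.N808.PR.Step2
import Pool.Agent.N808.AS.GTop
import Pool.Agent.N808.AS.GDIM
import Pool.Agent.N808.AS.GKD

/-!
Admissible towers in mixed characteristic: the operations.

helper808; built on the libraries of helper98 and helper762.
-/

set_option autoImplicit false
set_option linter.unusedVariables false
set_option linter.unusedSectionVars false

open MvPolynomial AlgebraicGeometry CategoryTheory Pool.Agent.N98 Pool.Agent.N808.RC

namespace Pool.Agent.N808.PR

/-- There are models over `R` on which finite families of nonzero elements of `P` are boundary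
functions. -/
def RMk (R k : Type) {K : Type} [CommRing R] [Field k] [Field K] [Algebra R k] [Algebra k K]
    (P : Set K) : Prop :=
  letI : Algebra R K := ((algebraMap k K).comp (algebraMap R k)).toAlgebra
  RMS R K {z | z ∈ P ∧ z ≠ 0}

section units

variable {R : Type} [CommRing R]

/-- Numbers whose prime factors are invertible. -/
lemma isUnit_of_primes {n : ℕ} (hn : IsUnit ((n : ℕ) : R)) : ∀ (m : ℕ), m ≠ 0 →
    (∀ p : ℕ, p.Prime → p ∣ m → p ∣ n) → IsUnit ((m : ℕ) : R) := by
  intro m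
  induction m using Nat.strong_induction_on with
  | _ m ih =>
    intro hm h
    by_cases h1 : m = 1
    · rw [h1, Nat.cast_one]
      exact isUnit_one
    · have hp := Nat.minFac_prime h1
      obtain ⟨c, hc⟩ := Nat.minFac_dvd m
      have hc0 : c ≠ 0 := by
        rintro rfl
        exact hm hc
      have hcm : c < m := by
        rw [hc]
        have h2 := hp.two_le
        have h3 : 0 < c := Nat.pos_of_ne_zero hc0
        nlinarith
      rw [hc, Nat.cast_mul]
      refine IsUnit.mul (Pool.Agent.N808.AS.isUnit_cast_dvd (h _ hp (Nat.minFac_dvd m)) hn)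
        (ih c hcm hc0 fun p hp hpc => h p hp (hpc.trans ?_))
      exact ⟨m.minFac, by rw [mul_comm]; exact hc⟩

lemma isUnit_factorial_of_primes {n : ℕ} (hn : IsUnit ((n : ℕ) : R)) (D : ℕ)
    (h : ∀ p : ℕ, p.Prime → p ≤ D → p ∣ n) : IsUnit ((D.factorial : ℕ) : R) :=
  isUnit_of_primes hn _ (Nat.factorial_ne_zero _) fun p hp hpD =>
    h p hp ((Nat.Prime.dvd_factorial hp).1 hpD)

/-- The residue characteristic. -/
lemma isUnit_of_not_dvd (R : Type) [CommRing R] [IsLocalRing R] (n : ℕ)
    (h : ¬ ringChar (IsLocalRing.ResidueField R) ∣ n) : IsUnit ((n : ℕ) : R) := by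
  by_contra hcon
  have h1 : ((n : ℕ) : R) ∈ IsLocalRing.maximalIdeal R := hcon
  rw [← IsLocalRing.residue_eq_zero_iff, map_natCast, ringChar.spec] at h1
  exact h h1

end units

section ops

variable {R k : Type} [CommRing R] [Field k] [Algebra R k]

/-- Fields with log regular models. -/
theorem rmk_base {E : Type} [Field E] [Algebra k E] [inst : Algebra R E] [IsScalarTower R k E]
    (hE : RM.HasRM R E) : RMk R k (Set.univ : Set E) := by
  have h1 : inst = ((algebraMap k E).comp (algebraMap R k)).toAlgebra :=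
    Algebra.algebra_ext _ _ fun a => IsScalarTower.algebraMap_apply R k E a
  subst h1
  letI : Algebra R E := ((algebraMap k E).comp (algebraMap R k)).toAlgebra
  intro H _ h hh
  have := Fintype.ofFinite H
  obtain ⟨T, I, hT, hI, M, hF, hfr⟩ := hE H h fun a => (hh a).2
  exact ⟨T, I, hT, hI, M, hfr, fun a => RM.IsB.br (hF a)⟩

/-- Families of bounded degree. -/
theorem rmk_fam [IsNoetherianRing R] [CharZero k] (hkfl : S_kfl.{0}) (hsqf : S_sqf.{0})
    (hrhc : S_rhc.{0}) {L K E : Type} [Field L] [Field K] [Field E] [Algebra k L] [Algebra k K]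
    [Algebra L K] [IsScalarTower k L K] [Algebra E L] [Algebra E K] [IsScalarTower E L K]
    {P : Set L} (hP : RMk R k P) (hE : ∀ a : E, algebraMap E L a ∈ P) {N : ℕ} (y : Fin N → K)
    (hy : IntermediateField.adjoin L (Set.range y) = ⊤) (r : ℕ) (hr : Algebra.trdeg L K = r)
    (htr : Algebra.trdeg E (IntermediateField.adjoin E (Set.range y)) = r) (δ C0 s : ℕ)
    (hs : 1 ≤ s)
    (hδ : ∀ t : ℕ, r.factorial * Module.finrank E (img E y t) ≤ δ * (t + C0) ^ r)
    (hchar : IsUnit ((Nat.factorial ((s * δ) ^ 2 ^ r) : ℕ) : R)) :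
    RMk R k (algebraMap L K '' P ∪ {z | ∃ G : MvPolynomial (Fin N) E, G.totalDegree ≤ s ∧
      z = aeval y G}) := by
  have hL0 : CharZero L := charZero_of_injective_algebraMap (algebraMap k L).injective
  have hE0 : CharZero E := (algebraMap E L).charZero_iff (algebraMap E L).injective |>.2 hL0
  let _ : Algebra R L := ((algebraMap k L).comp (algebraMap R k)).toAlgebra
  let _ : Algebra R K := ((algebraMap k K).comp (algebraMap R k)).toAlgebra
  have hs1 : IsScalarTower R L K := IsScalarTower.of_algebraMap_eq fun a =>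
    IsScalarTower.algebraMap_apply k L K (algebraMap R k a)
  exact fam_rms (k := R) hkfl hsqf hrhc P hP hE y hy r htr hr δ C0 s hs hδ hchar

/-- Adjoining one element. -/
theorem rmk_root [IsNoetherianRing R] (hroot : S_root.{0}) {L K : Type} [Field L] [Field K]
    [Algebra k L] [Algebra k K] [Algebra L K] [IsScalarTower k L K] {P : Set L} (hP : RMk R k P)
    (Δ : ℕ) (hΔ : IsUnit ((Nat.factorial Δ : ℕ) : R)) (Φ : Set (Polynomial L))
    (h0 : ∀ f ∈ Φ, f ≠ 0) (hdeg : ∀ f ∈ Φ, f.natDegree ≤ Δ) (hX : Polynomial.X ∈ Φ)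
    (hder : ∀ f ∈ Φ, 1 ≤ f.natDegree → Polynomial.derivative f ∈ Φ)
    (hconst : ∀ f ∈ Φ, f.natDegree = 0 → f.coeff 0 ∈ P)
    (hQ : ∀ f ∈ Φ, ∀ g ∈ Φ, 1 ≤ f.natDegree → ∃ Q : Polynomial L, Q ≠ 0 ∧ Q.natDegree ≤ Δ ∧
      f ∣ Q.comp g ∧ ∀ n, Q.coeff n ≠ 0 → Q.coeff n ∈ P)
    (z : K) (hz : IntermediateField.adjoin L {z} = ⊤)
    (hz' : Transcendental L z ∨ ∃ f ∈ Φ, Polynomial.aeval z f = 0) :
    RMk R k (algebraMap L K '' P ∪ {y | ∃ f ∈ Φ, y = Polynomial.aeval z f}) := by
  let _ : Algebra R L := ((algebraMap k L).comp (algebraMap R k)).toAlgebra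
  let _ : Algebra R K := ((algebraMap k K).comp (algebraMap R k)).toAlgebra
  have hs1 : IsScalarTower R L K := IsScalarTower.of_algebraMap_eq fun a =>
    IsScalarTower.algebraMap_apply k L K (algebraMap R k a)
  exact hroot R L K P hP Δ hΔ Φ h0 hdeg hX hder hconst hQ z hz hz'

/-- Radicals. -/
theorem rmk_rad [IsNoetherianRing R] {L K : Type} [Field L] [Field K]
    [Algebra k L] [Algebra k K] [Algebra L K] [IsScalarTower k L K] {P : Set L} (hP : RMk R k P)
    {s : ℕ} (w : Fin s → K) (hw0 : ∀ j, w j ≠ 0) (n : Fin s → ℕ)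
    (hn : ∀ j, IsUnit ((n j : ℕ) : R)) (hw : ∀ j, ∃ z ∈ P, w j ^ n j = algebraMap L K z)
    (htop : IntermediateField.adjoin L (Set.range w) = ⊤) :
    RMk R k (algebraMap L K '' P ∪ Set.range w) := by
  let _ : Algebra R L := ((algebraMap k L).comp (algebraMap R k)).toAlgebra
  let _ : Algebra R K := ((algebraMap k K).comp (algebraMap R k)).toAlgebra
  have hs1 : IsScalarTower R L K := IsScalarTower.of_algebraMap_eq fun a =>
    IsScalarTower.algebraMap_apply k L K (algebraMap R k a)
  exact t_RAD R L K P hP s w hw0 n hn hw htop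

/-- Products and roots. -/
theorem rmk_sat {K : Type} [Field K] [Algebra k K] {P Q : Set K} (hP : RMk R k P)
    (hQ : ∀ z ∈ Q, z ≠ 0 → ∃ m : ℕ, IsUnit ((m : ℕ) : R) ∧ ∃ (l : ℕ) (a : Fin l → K)
      (e : Fin l → ℤ), (∀ i, a i ∈ P) ∧ z ^ m = ∏ i, a i ^ e i) : RMk R k Q := by
  classical
  let _ : Algebra R K := ((algebraMap k K).comp (algebraMap R k)).toAlgebra
  intro H _ h hh
  choose m hm l a e ha hz using fun i => hQ (h i) (hh i).1 (hh i).2
  obtain ⟨T, I, hT, hI, M, hFr, hM⟩ := hP {t : Σ i, Fin (l i) // a t.1 t.2 ≠ 0}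
    (fun t => a t.1.1 t.1.2) (fun t => ⟨ha _ _, t.2⟩)
  refine ⟨T, I, hT, hI, M, hFr, fun i => ?_⟩
  have h0 : ∏ j, a i j ^ e i j ≠ 0 := by
    rw [← hz]
    exact pow_ne_zero _ (hh i).2
  have h1 : RM.IsBr M (h i ^ m i) := by
    rw [hz]
    refine Pool.Agent.N808.RC.IsBr.prod _ _ fun j _ => ?_
    by_cases h : a i j = 0
    · have h1 : e i j = 0 := by
        by_contra h2
        apply h0
        rw [Finset.prod_eq_zero (Finset.mem_univ j)]
        rw [h, zero_zpow _ h2]
      rw [h1, zpow_zero]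
      exact RM.IsB.one.br
    · exact Pool.Agent.N808.RC.IsBr.zpow (hM ⟨⟨i, j⟩, h⟩) _
  obtain ⟨q, hq, hB⟩ := h1
  refine ⟨m i * q, ?_, ?_⟩
  · rw [Nat.cast_mul]
    exact (hm i).mul hq
  · rw [pow_mul]
    exact hB

end ops

section surf

variable {O F E : Type} [CommRing O] [IsDedekindDomain O] [Module.Finite ℤ O]
    [Field F] [Algebra O F] [IsFractionRing O F] [CharZero F] [Field E] [Algebra F E]
    [Algebra O E] [IsScalarTower O F E]
    (ON : Type) [CommRing ON] [IsDedekindDomain ON] [Algebra ON F] [IsFractionRing ON F]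
    [Algebra ON E] [IsScalarTower ON F E] [Algebra O ON] [IsScalarTower O ON F] (N : ℕ)
    (hN : N ≠ 0) (hNu : IsUnit ((N : ℕ) : ON))
    (hs : ∀ c : ON, ∃ (n : ℕ) (a : O), ((N : ℕ) : ON) ^ n * c = algebraMap O ON a)

open Pool.Agent.N808.AS Pool.Agent.W418.LU2

include hN hNu hs

/-- Function fields of projective models which are regular at all points at which `N` is
invertible. -/
theorem hasRM_surf (htr : Algebra.trdeg F E ≤ 1) {m : ℕ}
    (H : Fin (m + 1) → E) (hH : ∀ i, H i ≠ 0)
    (hgen : IntermediateField.adjoin F (Set.range fun j => H j / H 0) = ⊤)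
    (hreg : ∀ i (𝔭 : Ideal (ch O H i)) [𝔭.IsPrime], ((N : ℕ) : ch O H i) ∉ 𝔭 →
        IsRegularLocalRing (Localization.AtPrime 𝔭)) : RM.HasRM ON E := by
  have htow : IsScalarTower O ON E := IsScalarTower.of_algebraMap_eq fun a => by
    rw [IsScalarTower.algebraMap_apply O F E, IsScalarTower.algebraMap_apply O ON F,
      ← IsScalarTower.algebraMap_apply ON F E]
  have hE0 : CharZero E := charZero_of_injective_algebraMap (algebraMap F E).injective
  have hNE : (N : E) ≠ 0 := Nat.cast_ne_zero.2 hN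
  obtain ⟨M, hM⟩ := t_COO ON E m H hH
  have hM' : ∀ t, M.A t = ch ON H t := hM
  refine hasRM_of_regular (F := F) t_DIM t_DLE t_PFO t_KDIM
    (finite_res' (O := O) (F := F) ON N hN hNu hs) htr M ?_ ?_
  · intro t S hS
    have h1 : (ch ON H t).toSubring ≤ S := by
      rw [← hM' t]
      exact hS.2
    have h2 : IsRegularLocalRing (lo S (ch ON H t).toSubring) := by
      rw [lo_ch (O := O) hNE hNu hs h1]
      have hS0 : (ch O H t).toSubring ≤ S := (ch_le t).trans h1
      obtain ⟨P, hP, hPW, e, he⟩ := Pool.Agent.N98.RV.exists_center' (A := ch O H t)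
        (ch O H t).val.toRingHom Subtype.val_injective (S := (ch O H t).toSubring)
        (fun y => ⟨fun hy => ⟨⟨y, hy⟩, rfl⟩, by rintro ⟨a, rfl⟩; exact a.2⟩) hS.1 hS0
      have h3 : IsRegularLocalRing (Localization.AtPrime P) := by
        refine hreg t P ((hPW _).2 ?_)
        have hNS : (N : E)⁻¹ ∈ S := h1 (inv_nat_mem hNE hNu (ch ON H t))
        have e1 : (ch O H t).val.toRingHom ((N : ℕ) : ch O H t) = (N : E) := map_natCast _ _
        rw [e1]
        exact ⟨hNE, hNS⟩
      exact IsRegularLocalRing.of_ringEquiv e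
    unfold PM.P
    rw [hM' t]
    exact h2
  · intro t y
    rw [hM' t]
    exact frac_ch (F := F) hH hgen t y

/-- Function fields of curves of bounded degree. -/
theorem hasRM_crv {m : ℕ} (y : Fin m → E)
    (htop : IntermediateField.adjoin F (Set.range y) = ⊤) (htr : Algebra.trdeg F E = (1 : ℕ))
    (δ C0 : ℕ) (hδ : ∀ t : ℕ, (1 : ℕ).factorial * Module.finrank F (img F y t) ≤ δ * (t + C0) ^ 1)
    (hchar : IsUnit ((Nat.factorial (δ ^ 2) : ℕ) : ON)) : RM.HasRM ON E := by
  have hchar' : IsUnit ((Nat.factorial ((1 * δ) ^ 2 ^ 1) : ℕ) : ON) := by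
    rw [one_mul, pow_one]
    exact hchar
  have hF : Infinite F := inferInstance
  obtain ⟨T, I, hT, hI, M, hFr, -⟩ := rel_models_poly (k := ON) (E := F) y RM.hasRM_dedekind htop
    1 htr δ C0 1 le_rfl hδ hchar' Empty (fun i => i.elim) (fun i => i.elim) (fun i => i.elim)
  obtain ⟨M', hM'⟩ := pm_of_lm M
  refine hasRM_of_regular (F := F) t_DIM t_DLE t_PFO t_KDIM
    (finite_res' (O := O) (F := F) ON N hN hNu hs)
    (by rw [htr, Nat.cast_one]) M' ?_ ?_
  · intro t S hS
    have h1 : (M.A t).toSubring ≤ S := by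
      rw [← hM']
      exact hS.2
    have h2 := (M.rg t).reg S hS.1 h1 Empty (fun i => i.elim) (fun i => i.elim)
    unfold PM.P
    rw [hM']
    exact h2.reg
  · intro t y
    rw [hM']
    exact hFr t y

end surf

/-- The conclusion from log regular models. -/
theorem exists_of_rmk {O F K : Type} [CommRing O] [IsDedekindDomain O] [Module.Finite ℤ O]
    [Field F] [Algebra O F] [IsFractionRing O F] [CharZero F] [Field K] [Algebra F K]
    (N : ℕ) (hN : N ≠ 0) (P : Set K)
    (h : ∀ (ON : Type) [CommRing ON] [IsDedekindDomain ON] [Algebra ON F] [IsFractionRing ON F]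
      [Algebra O ON] [IsScalarTower O ON F], IsUnit ((N : ℕ) : ON) →
      (∀ c : ON, ∃ (n : ℕ) (a : O), ((N : ℕ) : ON) ^ n * c = algebraMap O ON a) →
      RMk ON F P) :
    ∃ (X' : Scheme.{0}) (_ : IsIntegral X') (γ : X' ⟶ Spec (CommRingCat.of ℤ)),
      IsProper γ ∧
      (∀ x : X', IsUnit ((N : ℕ) : X'.presheaf.stalk x) →
        IsRegularLocalRing (X'.presheaf.stalk x)) ∧
      Nonempty (X'.functionField ≃+* K) := by
  classical
  let ON := Localization.Away ((N : ℕ) : O)
  have hNF : algebraMap O F ((N : ℕ) : O) ≠ 0 := by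
    rw [map_natCast]
    exact Nat.cast_ne_zero.2 hN
  have hNO : ((N : ℕ) : O) ≠ 0 := fun h => hNF (by rw [h, map_zero])
  have hle : Submonoid.powers ((N : ℕ) : O) ≤ nonZeroDivisors O :=
    powers_le_nonZeroDivisors_of_noZeroDivisors hNO
  let ψ : ON →+* F := IsLocalization.Away.lift (S := ON) ((N : ℕ) : O) (IsUnit.mk0 _ hNF)
  let _ : Algebra ON F := ψ.toAlgebra
  have h1 : IsScalarTower O ON F := IsScalarTower.of_algebraMap_eq fun a =>
    (IsLocalization.Away.lift_eq ((N : ℕ) : O) (IsUnit.mk0 _ hNF) a).symm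
  have h2 : IsDomain ON := IsLocalization.isDomain_localization hle
  have h3 : IsDedekindDomain ON := IsLocalization.isDedekindDomain O hle ON
  have h4 : IsFractionRing ON F :=
    IsFractionRing.isFractionRing_of_isDomain_of_isLocalization
      (Submonoid.powers ((N : ℕ) : O)) ON F
  have hu : IsUnit ((N : ℕ) : ON) := by
    have h8 := IsLocalization.Away.algebraMap_isUnit (S := ON) ((N : ℕ) : O)
    rwa [map_natCast] at h8
  have h5 := h ON hu (fun c => by
    obtain ⟨n, a, h⟩ := IsLocalization.Away.surj ((N : ℕ) : O) c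
    refine ⟨n, a, ?_⟩
    rw [← h, map_natCast, mul_comm])
  let _ : Algebra ON K := ((algebraMap F K).comp (algebraMap ON F)).toAlgebra
  let _ : Algebra O K := ((algebraMap ON K).comp (algebraMap O ON)).toAlgebra
  have h6 : IsScalarTower O ON K := IsScalarTower.of_algebraMap_eq fun _ => rfl
  have h6' : ∀ a : O, algebraMap O K a = algebraMap F K (algebraMap O F a) := by
    intro a
    change algebraMap F K (algebraMap ON F (algebraMap O ON a)) = _
    rw [← IsScalarTower.algebraMap_apply O ON F]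
  obtain ⟨T, I, hT, hI, M, hFr, -⟩ := h5 Empty (fun i => i.elim) (fun i => i.elim)
  refine RM.exists_model_Z (O := O) (ON := ON) ?_ N ?_ ?_ M hFr
  · intro a b hab
    rw [h6', h6'] at hab
    exact IsFractionRing.injective O F ((algebraMap F K).injective hab)
  · intro c
    obtain ⟨n, a, h⟩ := IsLocalization.Away.surj ((N : ℕ) : O) c
    exact ⟨n, a, h⟩
  · rw [h6']
    exact (_root_.map_ne_zero _).2 hNF

end Pool.Agent.N808.PR
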