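import Pool.Agent.N808.PR.Cls
import Pool.Agent.N98.Cnt

/-!
Families of affine spaces and of hypersurfaces of bounded degree over a subfield of boundary
functions.

helper808; built on the library of helper98.
-/

set_option autoImplicit false
set_option linter.unusedVariables false
set_option linter.unusedSectionVars false

universe u

open scoped IntermediateField.algebraAdjoinAdjoin

open MvPolynomial Pool.Agent.N98 Pool.Agent.N808.RC

namespace Pool.Agent.N808.PR

section fam

variable {k C E K : Type u} [Field C] [Field E] [Field K] [Algebra C E]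
  [Algebra C K] [Algebra E K] [IsScalarTower C E K]

lemma isUnit_cast_dvd' {R : Type u} [CommRing R] {a b : ℕ} (h : a ∣ b)
    (hb : IsUnit ((b : ℕ) : R)) : IsUnit ((a : ℕ) : R) := by
  obtain ⟨c, rfl⟩ := h
  rw [Nat.cast_mul] at hb
  exact isUnit_of_mul_isUnit_left hb

lemma ind_of_le {N r : ℕ} (y : Fin N → K)
    (htop : IntermediateField.adjoin E (Set.range y) = ⊤) (htr : Algebra.trdeg E K = r)
    (hN : N ≤ r) : AlgebraicIndependent E y := by
  have halg' : Algebra.IsAlgebraic (Algebra.adjoin E (Set.range y)) K := by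
    have h1 : Algebra.IsAlgebraic (IntermediateField.adjoin E (Set.range y)) K := by
      refine ⟨fun z => ?_⟩
      have hz : z ∈ IntermediateField.adjoin E (Set.range y) := by rw [htop]; trivial
      exact isAlgebraic_algebraMap (⟨z, hz⟩ : IntermediateField.adjoin E (Set.range y))
    exact (IsFractionRing.comap_isAlgebraic_iff (A := Algebra.adjoin E (Set.range y))
      (K := IntermediateField.adjoin E (Set.range y)) (C := K)).2 h1
  refine (Algebra.IsAlgebraic.isTranscendenceBasis_of_lift_le_trdeg_of_finite E y ?_).1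
  rw [htr]
  simpa using hN

/-- **Families of affine spaces and of hypersurfaces of bounded degree** over a subfield of
boundary functions. -/
theorem fam3_rms [CommRing k] [IsNoetherianRing k] [Algebra k E] [Algebra k K]
    [IsScalarTower k E K] [CharZero C] (hrtn : S_rtn.{u}) (hkfl : S_kfl.{u}) (hsqf : S_sqf.{u})
    (hrhc : S_rhc.{u})
    (P : Set E) (hS : RMS k E {z | z ∈ P ∧ z ≠ 0}) (hCP : ∀ c : C, algebraMap C E c ∈ P)
    {N : ℕ} (y : Fin N → K) (htopE : IntermediateField.adjoin E (Set.range y) = ⊤)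
    (r : ℕ) (hN : N ≤ r + 1)
    (htr : Algebra.trdeg C (IntermediateField.adjoin C (Set.range y)) = r)
    (htrE : Algebra.trdeg E K = r) (δ C0 d : ℕ) (hd : 1 ≤ d)
    (hδ : ∀ t : ℕ, r.factorial * Module.finrank C (img C y t) ≤ δ * (t + C0) ^ r)
    (hchar : IsUnit ((Nat.factorial ((max d δ) ^ 2 ^ (N - 1)) : ℕ) : k)) :
    RMS k K {z | (z ∈ algebraMap E K '' P ∨ ∃ G : MvPolynomial (Fin N) C, G.totalDegree ≤ d ∧
      z = aeval y G) ∧ z ≠ 0} := by
  classical
  intro H _ h hh
  have hCS : ∀ c : C, c ≠ 0 → algebraMap C E c ∈ {z | z ∈ P ∧ z ≠ 0} := fun c hc =>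
    ⟨hCP c, (_root_.map_ne_zero _).2 hc⟩
  have hz : ∀ a, h a ∈ ext (AlgHom.id C K) {z | z ∈ P ∧ z ≠ 0} y d := by
    intro a
    obtain ⟨⟨s, hs, hsa⟩ | ⟨G, hG, hGa⟩, h0⟩ := hh a
    · refine Or.inl ⟨s, ⟨hs, ?_⟩, hsa.symm⟩
      rintro rfl
      apply h0
      rw [← hsa, map_zero]
    · exact Or.inr ⟨G, hG, hGa, h0⟩
  choose g G hg hG hG0' hgG using fun a => ext_family (AlgHom.id C K) _ hCS y d (hz a)
  have hG0 : ∀ a, aeval y (G a) ≠ 0 := hG0'
  have hgG' : ∀ a, h a = algebraMap E K (g a) * aeval y (G a) := hgG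
  have hmap : ∀ g : MvPolynomial (Fin N) C, aeval y (map (algebraMap C E) g) = aeval y g :=
    fun g => aeval_map_algebraMap E y g
  rcases Nat.lt_or_ge r N with hNr | hNr
  · -- hypersurfaces
    obtain rfl : N = r + 1 := by omega
    obtain ⟨F, hF, hkerF⟩ : ∃ F : MvPolynomial (Fin (r + 1)) C, Irreducible F ∧
        ∀ g, aeval y g = 0 ↔ F ∣ g := by
      let L := IntermediateField.adjoin C (Set.range y)
      let x : Fin (r + 1) → L := fun i => ⟨y i, IntermediateField.subset_adjoin C _ ⟨i, rfl⟩⟩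
      have htop : IntermediateField.adjoin C (Set.range x) = ⊤ := by
        apply IntermediateField.lift_injective L
        rw [IntermediateField.lift_top]
        apply le_antisymm
        · exact IntermediateField.lift_le _
        · rw [IntermediateField.adjoin_le_iff]
          rintro _ ⟨i, rfl⟩
          exact ⟨x i, IntermediateField.subset_adjoin C _ ⟨i, rfl⟩, rfl⟩
      obtain ⟨F, hF, hker⟩ := hkfl C L r x htop htr
      refine ⟨F, hF, fun g => ?_⟩
      rw [← hker g]
      have h1 : aeval y g = L.val (aeval x g) := by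
        rw [comp_aeval_apply]
        rfl
      rw [h1]
      exact map_eq_zero L.val
    have hFd : F.totalDegree ≤ δ := totalDegree_le_of_growth r (Fintype.card_fin _) y δ C0 hδ F
      hF.ne_zero fun g => (hkerF g).1
    obtain ⟨G', hG', hkerG'⟩ := hkfl E K r y htopE htrE
    obtain ⟨c, hc, hc0⟩ := hsqf C E K (r + 1) y F hF hkerF G' hkerG'
    obtain ⟨T, I, hT, hI, M, hFr, hM, hMg⟩ := hrhc k C E K _ hS hCS (r + 1) (max d δ)
      (hd.trans (le_max_left _ _)) hchar y htopE F (hFd.trans (le_max_right _ _)) G' c hG' hc hc0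
      hkerG' H H G g (fun b => by rw [hmap]; exact hG0 b)
      (fun b => (hG b).trans (le_max_left _ _)) hg (fun i => (hg i).2)
    refine ⟨T, I, hT, hI, M, hFr, fun a => ?_⟩
    rw [hgG' a, ← hmap]
    exact (hMg a).mul (hM a)
  · -- affine spaces
    have hind := ind_of_le y htopE htrE hNr
    obtain ⟨T, I, hT, hI, M, hFr, hM, hMg, -⟩ := hrtn k C E _ hS hCS N d hd
      (fun _ => isUnit_cast_dvd' (Nat.factorial_dvd_factorial
        (Nat.pow_le_pow_left (le_max_left d δ) _)) hchar) K y hind htopE H H G g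
      (fun b h0 => hG0 b (by rw [h0, map_zero])) hG hg
    refine ⟨T, I, hT, hI, M, hFr, fun a => ?_⟩
    rw [hgG' a, ← hmap]
    exact (hMg a).mul (hM a)

end fam

end Pool.Agent.N808.PR
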