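import Pool.Agent.N808.PR.Stm2
import Pool.Agent.N98.Filt

/-!
Admissible towers in mixed characteristic: families in affine spaces of small dimension.
-/

set_option autoImplicit false
set_option linter.unusedVariables false

universe u

open MvPolynomial

namespace Pool.Agent.N808.PR

/-- FAM2: families of varieties of bounded degree, with the bound `max s δ ^ 2 ^ (N - 1)` (compare
`Pool.Agent.N762.FP.mod_fam`, second case of `hD`, with `e = 0`, `m i = 1`, `F = E`). -/
def S_fam2 : Prop := ∀ (k C E K : Type u) [CommRing k] [IsNoetherianRing k] [Field C] [CharZero C]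
  [Field E] [Field K] [Algebra C E] [Algebra C K] [Algebra E K] [IsScalarTower C E K]
  [Algebra k E] [Algebra k K] [IsScalarTower k E K] (P : Set E),
  RMS k E {z | z ∈ P ∧ z ≠ 0} → (∀ c : C, algebraMap C E c ∈ P) → ∀ (N : ℕ) (y : Fin N → K),
  IntermediateField.adjoin E (Set.range y) = ⊤ → ∀ (r : ℕ),
  Algebra.trdeg C (IntermediateField.adjoin C (Set.range y)) = r → Algebra.trdeg E K = r →
  ∀ (δ C0 s : ℕ), 1 ≤ s →
  (∀ t : ℕ, r.factorial * Module.finrank C (Pool.Agent.N98.img C y t) ≤ δ * (t + C0) ^ r) →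
  IsUnit ((Nat.factorial ((max s δ) ^ 2 ^ (N - 1)) : ℕ) : k) →
  RMS k K {z | (z ∈ algebraMap E K '' P ∨ ∃ G : MvPolynomial (Fin N) C, G.totalDegree ≤ s ∧
    z = aeval y G) ∧ z ≠ 0}

end Pool.Agent.N808.PR
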