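import Pool.Agent.N808.PR.Stm

/-!
Roots of boundary functions, mixed characteristic.
-/

set_option autoImplicit false
set_option linter.unusedVariables false

universe u

namespace Pool.Agent.N808.PR

/-- POW: roots of boundary functions are boundary functions (compare
`Pool.Agent.N762.RC2.isBr_of_pow`). -/
def S_pow : Prop := ∀ (k K : Type u) [CommRing k] [IsNoetherianRing k] [Field K] [Algebra k K]
  (T I : Type) [Finite T] [Fintype I] (M : Pool.Agent.N98.RM.LM (⊥ : Subalgebra k K) ⊤ T I),
  Pool.Agent.N98.RM.Frc M → ∀ (g : K) (q : ℕ), q ≠ 0 → Pool.Agent.N98.RM.IsBr M (g ^ q) →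
  Pool.Agent.N98.RM.IsBr M g

end Pool.Agent.N808.PR
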