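import Pool.Agent.N808.PR.Cls
import Pool.Agent.N808.PR.Stm3
import Pool.Agent.N808.PR.Stm4
import Pool.Agent.N808.PR.Fam3

/-!
Admissible towers in mixed characteristic: families in affine spaces of small dimension, and roots.

helper808; built on the libraries of helper98 and helper762.
-/

set_option autoImplicit false
set_option linter.unusedVariables false
set_option linter.unusedSectionVars false

open MvPolynomial Pool.Agent.N98 Pool.Agent.N808.RC

namespace Pool.Agent.N808.PR

variable {R k : Type} [CommRing R] [Field k] [Algebra R k]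

/-- Families of bounded degree, the bound for affine spaces of small dimension. -/
theorem rmk_fam2 [IsNoetherianRing R] [CharZero k] (hfam : S_fam2.{0})
    {L K E : Type} [Field L] [Field K] [Field E] [Algebra k L] [Algebra k K]
    [Algebra L K] [IsScalarTower k L K] [Algebra E L] [Algebra E K] [IsScalarTower E L K]
    {P : Set L} (hP : RMk R k P) (hE : ∀ a : E, algebraMap E L a ∈ P) {N : ℕ} (y : Fin N → K)
    (hy : IntermediateField.adjoin L (Set.range y) = ⊤) (r : ℕ) (hr : Algebra.trdeg L K = r)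
    (htr : Algebra.trdeg E (IntermediateField.adjoin E (Set.range y)) = r) (δ C0 s : ℕ)
    (hs : 1 ≤ s)
    (hδ : ∀ t : ℕ, r.factorial * Module.finrank E (img E y t) ≤ δ * (t + C0) ^ r)
    (hchar : IsUnit ((Nat.factorial ((max s δ) ^ 2 ^ (N - 1)) : ℕ) : R)) :
    RMk R k (algebraMap L K '' P ∪ {z | ∃ G : MvPolynomial (Fin N) E, G.totalDegree ≤ s ∧
      z = aeval y G}) := by
  have hL0 : CharZero L := charZero_of_injective_algebraMap (algebraMap k L).injective
  have hE0 : CharZero E := (algebraMap E L).charZero_iff (algebraMap E L).injective |>.2 hL0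
  let _ : Algebra R L := ((algebraMap k L).comp (algebraMap R k)).toAlgebra
  let _ : Algebra R K := ((algebraMap k K).comp (algebraMap R k)).toAlgebra
  have hs1 : IsScalarTower R L K := IsScalarTower.of_algebraMap_eq fun a =>
    IsScalarTower.algebraMap_apply k L K (algebraMap R k a)
  exact hfam R E L K P hP hE N y hy r htr hr δ C0 s hs hδ hchar

/-- Families of affine spaces and of hypersurfaces. -/
theorem rmk_fam3 [IsNoetherianRing R] [CharZero k] (hrtn : S_rtn.{0}) (hkfl : S_kfl.{0})
    (hsqf : S_sqf.{0}) (hrhc : S_rhc.{0})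
    {L K E : Type} [Field L] [Field K] [Field E] [Algebra k L] [Algebra k K]
    [Algebra L K] [IsScalarTower k L K] [Algebra E L] [Algebra E K] [IsScalarTower E L K]
    {P : Set L} (hP : RMk R k P) (hE : ∀ a : E, algebraMap E L a ∈ P) {N : ℕ} (y : Fin N → K)
    (hy : IntermediateField.adjoin L (Set.range y) = ⊤) (r : ℕ) (hN : N ≤ r + 1)
    (hr : Algebra.trdeg L K = r)
    (htr : Algebra.trdeg E (IntermediateField.adjoin E (Set.range y)) = r) (δ C0 s : ℕ)
    (hs : 1 ≤ s)
    (hδ : ∀ t : ℕ, r.factorial * Module.finrank E (img E y t) ≤ δ * (t + C0) ^ r)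
    (hchar : IsUnit ((Nat.factorial ((max s δ) ^ 2 ^ (N - 1)) : ℕ) : R)) :
    RMk R k (algebraMap L K '' P ∪ {z | ∃ G : MvPolynomial (Fin N) E, G.totalDegree ≤ s ∧
      z = aeval y G}) := by
  have hL0 : CharZero L := charZero_of_injective_algebraMap (algebraMap k L).injective
  have hE0 : CharZero E := (algebraMap E L).charZero_iff (algebraMap E L).injective |>.2 hL0
  let _ : Algebra R L := ((algebraMap k L).comp (algebraMap R k)).toAlgebra
  let _ : Algebra R K := ((algebraMap k K).comp (algebraMap R k)).toAlgebra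
  have hs1 : IsScalarTower R L K := IsScalarTower.of_algebraMap_eq fun a =>
    IsScalarTower.algebraMap_apply k L K (algebraMap R k a)
  exact fam3_rms (k := R) (C := E) (E := L) hrtn hkfl hsqf hrhc P hP hE y hy r hN htr hr δ C0 s hs
    hδ hchar

/-- Products and roots. -/
theorem rmk_sat' [IsNoetherianRing R] (hpow : S_pow.{0}) {K : Type} [Field K] [Algebra k K]
    {P Q : Set K} (hP : RMk R k P)
    (hQ : ∀ z ∈ Q, z ≠ 0 → ∃ m : ℕ, m ≠ 0 ∧ ∃ (l : ℕ) (a : Fin l → K)
      (e : Fin l → ℤ), (∀ i, a i ∈ P) ∧ z ^ m = ∏ i, a i ^ e i) : RMk R k Q := by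
  classical
  let _ : Algebra R K := ((algebraMap k K).comp (algebraMap R k)).toAlgebra
  intro H _ h hh
  choose m hm l a e ha hz using fun i => hQ (h i) (hh i).1 (hh i).2
  obtain ⟨T, I, hT, hI, M, hFr, hM⟩ := hP {t : Σ i, Fin (l i) // a t.1 t.2 ≠ 0}
    (fun t => a t.1.1 t.1.2) (fun t => ⟨ha _ _, t.2⟩)
  refine ⟨T, I, hT, hI, M, hFr, fun i => ?_⟩
  have h0 : ∏ j, a i j ^ e i j ≠ 0 := by
    rw [← hz]
    exact pow_ne_zero _ (hh i).2
  refine hpow R K T I M hFr (h i) (m i) (hm i) ?_
  rw [hz]
  refine Pool.Agent.N808.RC.IsBr.prod _ _ fun j _ => ?_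
  by_cases h : a i j = 0
  · have h1 : e i j = 0 := by
      by_contra h2
      apply h0
      rw [Finset.prod_eq_zero (Finset.mem_univ j)]
      rw [h, zero_zpow _ h2]
    rw [h1, zpow_zero]
    exact RM.IsB.one.br
  · exact Pool.Agent.N808.RC.IsBr.zpow (hM ⟨⟨i, j⟩, h⟩) _

end Pool.Agent.N808.PR
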