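import Pool.Agent.N808.PR.Stm

/-!
# Project PR (helper808): KER and LDJ, linearly disjoint base change of a prime equation

By helper711.
-/

set_option autoImplicit false
set_option linter.unusedSectionVars false

universe u

open MvPolynomial

namespace Pool.Agent.N808.PR

namespace KER_

section

variable {C E K : Type u} [Field C] [Field E] [Field K] [Algebra C E] [Algebra C K]
  [Algebra E K] [IsScalarTower C E K] (L : IntermediateField C K)

theorem aeval_coe {n : ℕ} (y : Fin n → L) (g : MvPolynomial (Fin n) C) :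
    aeval (fun i => (y i : K)) (map (algebraMap C E) g) = ((aeval y g : L) : K) := by
  rw [MvPolynomial.aeval_map_algebraMap]
  have h : (fun i => (y i : K)) = fun i => L.val (y i) := rfl
  rw [h]
  have h2 : aeval (fun i => L.val (y i)) g = L.val (aeval y g) := by
    rw [← MvPolynomial.comp_aeval_apply]
  rw [h2]
  rfl

theorem ker_mp (hLD : ∀ (m : ℕ) (a : Fin m → L), LinearIndependent C a →
      LinearIndependent E fun i => (a i : K))
    (n : ℕ) (y : Fin n → L) (F : MvPolynomial (Fin n) C)
    (hF : ∀ g : MvPolynomial (Fin n) C, aeval y g = 0 ↔ F ∣ g) (g : MvPolynomial (Fin n) E)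
    (hg : aeval (fun i => (y i : K)) g = 0) : map (algebraMap C E) F ∣ g := by
  classical
  -- the values of the monomials
  obtain ⟨v, hv⟩ : ∃ v : {m // m ∈ g.support} → L,
      v = fun m => aeval y (monomial m.1 (1 : C)) := ⟨_, rfl⟩
  obtain ⟨κ, a, ha, hspan, hli⟩ := exists_linearIndependent' C v
  have hκ : Finite κ := Finite.of_injective a ha
  have hκ' : Fintype κ := Fintype.ofFinite κ
  have hmem : ∀ m, ∃ c : κ → C, ∑ j, c j • (v ∘ a) j = v m := by
    intro m
    have h1 : v m ∈ Submodule.span C (Set.range (v ∘ a)) := by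
      rw [hspan]
      exact Submodule.subset_span ⟨m, rfl⟩
    exact (Submodule.mem_span_range_iff_exists_fun C).1 h1
  choose c hc using hmem
  -- the relations
  have hrel : ∀ m, F ∣ monomial m.1 (1 : C) - ∑ j, MvPolynomial.C (c m j) * monomial (a j).1 1 := by
    intro m
    rw [← hF, map_sub, map_sum]
    have h1 : ∀ j, aeval y (MvPolynomial.C (c m j) * monomial (a j).1 (1 : C)) =
        c m j • (v ∘ a) j := by
      intro j
      rw [map_mul, aeval_C, Algebra.smul_def, hv]
      rfl
    rw [Finset.sum_congr rfl fun j _ => h1 j, hc m, hv, sub_self]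
  -- linear independence
  have hli2 : ∀ e : κ → E, ∑ j, e j • (((v (a j) : L)) : K) = 0 → ∀ j, e j = 0 := by
    obtain ⟨f⟩ : Nonempty (κ ≃ Fin (Fintype.card κ)) := ⟨Fintype.equivFin κ⟩
    have h1 := hLD _ ((v ∘ a) ∘ f.symm) (hli.comp _ f.symm.injective)
    have h2 := h1.comp _ f.injective
    have h3 := Fintype.linearIndependent_iff.1 h2
    intro e he j
    refine h3 e ?_ j
    rw [← he]
    refine Finset.sum_congr rfl fun i _ => ?_
    simp
  have hrelE : ∀ m, map (algebraMap C E) F ∣ monomial m.1 (1 : E) -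
      ∑ j, MvPolynomial.C (algebraMap C E (c m j)) * monomial (a j).1 1 := by
    intro m
    have h1 := map_dvd (map (algebraMap C E)) (hrel m)
    rw [map_sub, map_sum, map_monomial, map_one] at h1
    simpa only [map_mul, map_C, map_monomial, map_one] using h1
  -- the decomposition
  have hgsum : g = ∑ m : {m // m ∈ g.support}, MvPolynomial.C (coeff m.1 g) * monomial m.1 (1 : E) := by
    conv_lhs => rw [g.as_sum]
    rw [← Finset.sum_coe_sort]
    refine Finset.sum_congr rfl fun m _ => ?_
    rw [C_mul_monomial, mul_one]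
  obtain ⟨p, hp⟩ : ∃ p : MvPolynomial (Fin n) E, p = ∑ m : {m // m ∈ g.support},
      MvPolynomial.C (coeff m.1 g) * (monomial m.1 (1 : E) -
        ∑ j, MvPolynomial.C (algebraMap C E (c m j)) * monomial (a j).1 1) := ⟨_, rfl⟩
  have hpd : map (algebraMap C E) F ∣ p := by
    rw [hp]
    exact Finset.dvd_sum fun m _ => (hrelE m).mul_left _
  obtain ⟨e, he⟩ : ∃ e : κ → E, e = fun j => ∑ m : {m // m ∈ g.support},
      coeff m.1 g * algebraMap C E (c m j) := ⟨_, rfl⟩
  have hdec : g = p + ∑ j, MvPolynomial.C (e j) * monomial (a j).1 1 := by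
    have h1 : ∑ j, MvPolynomial.C (e j) * monomial (a j).1 (1 : E) =
        ∑ m : {m // m ∈ g.support}, MvPolynomial.C (coeff m.1 g) *
          ∑ j, MvPolynomial.C (algebraMap C E (c m j)) * monomial (a j).1 1 := by
      rw [he]
      simp only [map_sum, map_mul, Finset.sum_mul, Finset.mul_sum]
      rw [Finset.sum_comm]
      refine Finset.sum_congr rfl fun m _ => Finset.sum_congr rfl fun j _ => ?_
      ring
    rw [h1, hp, ← Finset.sum_add_distrib]
    refine hgsum.trans (Finset.sum_congr rfl fun m _ => ?_)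
    ring
  -- evaluation
  have hp0 : aeval (fun i => (y i : K)) p = 0 := by
    obtain ⟨q, hq⟩ := hpd
    rw [hq, map_mul, aeval_coe, (hF F).2 dvd_rfl]
    simp
  have hev : ∑ j, e j • (((v (a j) : L)) : K) = 0 := by
    rw [hdec, map_add, hp0, zero_add, map_sum] at hg
    rw [← hg]
    refine Finset.sum_congr rfl fun j _ => ?_
    rw [map_mul, aeval_C, Algebra.smul_def, hv]
    congr 1
    have h1 := aeval_coe (E := E) L y (monomial (a j).1 (1 : C))
    rw [map_monomial, map_one] at h1
    exact h1.symm
  have he0 := hli2 e hev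
  have h1 : g = p := by
    conv_lhs => rw [hdec]
    simp [he0]
  rw [h1]
  exact hpd

end

end KER_

theorem t_KER : S_ker.{u} := by
  intro C E K _ _ _ _ _ _ _ L hLD n y F hF g
  constructor
  · exact KER_.ker_mp L hLD n y F hF g
  · rintro ⟨q, rfl⟩
    rw [map_mul, KER_.aeval_coe, (hF F).2 dvd_rfl]
    simp

theorem t_LDJ : S_ldj.{u} := fun _ _ _ _ _ _ _ H _ _ ha => H.linearIndependent_right ha

end Pool.Agent.N808.PR
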