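import Pool.Agent.N808.PR.Stm2
import Pool.Agent.N98.Spz

/-!
KFL: the relations of `r + 1` elements of transcendence degree `r` are the multiples of one relation.
SQF: in characteristic zero an irreducible polynomial has no multiple factors over an extension field.
-/

set_option autoImplicit false
set_option linter.unusedVariables false

universe u

open MvPolynomial

namespace Pool.Agent.N808.PR

namespace KFL_

section gen

variable {E K : Type u} [Field E] [Field K] [Algebra E K]

/-- some index can be left out -/
lemma exists_index (r : ℕ) (y : Fin (r + 1) → K)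
    (htop : IntermediateField.adjoin E (Set.range y) = ⊤) (htr : Algebra.trdeg E K = r) :
    ∃ j : Fin (r + 1), AlgebraicIndependent E fun i : Fin r => y (j.succAbove i) := by
  classical
  have halg0 : Algebra.IsAlgebraic (IntermediateField.adjoin E (Set.range y)) K :=
    ⟨fun x => isAlgebraic_algebraMap
      (⟨x, by rw [htop]; trivial⟩ : IntermediateField.adjoin E (Set.range y))⟩
  have halg : Algebra.IsAlgebraic (Algebra.adjoin E (Set.range y)) K :=
    IntermediateField.isAlgebraic_adjoin_iff_top.1 halg0
  obtain ⟨s, hs, hb⟩ := exists_isTranscendenceBasis_subset (R := E) (Set.range y)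
  have hcard : Cardinal.mk s = r := by
    rw [hb.cardinalMk_eq_trdeg, htr]
  have hfin : Nonempty (s ≃ Fin r) := by
    have h1 : Cardinal.mk s = Cardinal.mk (ULift.{u} (Fin r)) := by
      rw [hcard]
      simp
    obtain ⟨e⟩ := Cardinal.eq.1 h1
    exact ⟨e.trans Equiv.ulift⟩
  obtain ⟨e⟩ := hfin
  choose σ hσ using fun x : s => hs x.2
  -- the chosen indices
  let f : Fin r → Fin (r + 1) := fun i => σ (e.symm i)
  have hyf : ∀ i, y (f i) = (e.symm i : K) := fun i => hσ (e.symm i)
  have hfi : Function.Injective f := by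
    intro i i' h
    have h1 : y (f i) = y (f i') := congrArg y h
    rw [hyf, hyf] at h1
    exact e.symm.injective (Subtype.ext h1)
  obtain ⟨j, hj⟩ : ∃ j, ∀ i, f i ≠ j := by
    by_contra hcon
    push Not at hcon
    have := Fintype.card_le_of_surjective f hcon
    rw [Fintype.card_fin, Fintype.card_fin] at this
    omega
  choose g hg using fun i : Fin r => Fin.exists_succAbove_eq (hj i)
  have hgi : Function.Injective g := by
    intro i i' h
    apply hfi
    rw [← hg i, ← hg i', h]
  have hgs : Function.Surjective g := Finite.injective_iff_surjective.1 hgi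
  choose g' hg' using hgs
  have hg'i : Function.Injective g' := by
    intro i i' h
    rw [← hg' i, ← hg' i', h]
  refine ⟨j, ?_⟩
  have h2 : AlgebraicIndependent E fun i : Fin r => ((e.symm i : s) : K) :=
    hb.1.comp e.symm e.symm.injective
  have h3 := h2.comp g' hg'i
  have e1 : ((fun i : Fin r => ((e.symm i : s) : K)) ∘ g') = fun i => y (j.succAbove i) := by
    funext i
    have h4 := hg (g' i)
    rw [hg'] at h4
    rw [h4]
    exact (hyf (g' i)).symm
  rw [← e1]
  exact h3

/-- the kernel is principal -/
lemma exists_gen_at {r : ℕ} (y : Fin (r + 1) → K) (j : Fin (r + 1))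
    (hy : AlgebraicIndependent E fun i : Fin r => y (j.succAbove i))
    (g0 : MvPolynomial (Fin (r + 1)) E) (hg0 : g0 ≠ 0) (hg : MvPolynomial.aeval y g0 = 0) :
    ∃ F : MvPolynomial (Fin (r + 1)) E, Irreducible F ∧
      ∀ g, MvPolynomial.aeval y g = 0 ↔ F ∣ g := by
  let e : Fin (r + 1) ≃ Option (Fin r) := _root_.finSuccEquiv' j
  let ε : MvPolynomial (Fin (r + 1)) E ≃ₐ[E] MvPolynomial (Option (Fin r)) E :=
    renameEquiv E e
  have hev : ∀ g, aeval (fun o => y (e.symm o)) (ε g) = aeval y g := by
    intro g
    change aeval (fun o => y (e.symm o)) (rename e g) = _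
    rw [aeval_rename]
    congr 1
    congr 1
    funext i
    exact congrArg y (e.symm_apply_apply i)
  obtain ⟨F, hF, hF'⟩ := Pool.Agent.N98.exists_gen_option (E := E) (fun o => y (e.symm o)) (by
      have h1 : (fun i : Fin r => y (e.symm (some i))) = fun i => y (j.succAbove i) := by
        funext i
        rw [finSuccEquiv'_symm_some]
      rw [h1]
      exact hy) (ε g0) (fun h => hg0 (ε.injective (h.trans (map_zero ε).symm)))
      (by rw [hev, hg])
  refine ⟨ε.symm F, (MulEquiv.irreducible_iff ε.symm).2 hF, fun g => ?_⟩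
  rw [← hev, hF']
  constructor
  · intro h
    have := map_dvd ε.symm h
    rwa [ε.symm_apply_apply] at this
  · intro h
    have := map_dvd ε h
    rwa [ε.apply_symm_apply] at this

/-- the elements satisfy a relation -/
lemma exists_rel (r : ℕ) (y : Fin (r + 1) → K) (htr : Algebra.trdeg E K = r) :
    ∃ g0 : MvPolynomial (Fin (r + 1)) E, g0 ≠ 0 ∧ MvPolynomial.aeval y g0 = 0 := by
  by_contra hcon
  push Not at hcon
  have hy : AlgebraicIndependent E y := by
    rw [algebraicIndependent_iff]
    intro g hg
    by_contra h0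
    exact hcon g h0 hg
  have h1 := hy.lift_cardinalMk_le_trdeg
  rw [htr] at h1
  simp only [Cardinal.mk_fin, Cardinal.lift_natCast] at h1
  have h2 : r + 1 ≤ r := by exact_mod_cast h1
  omega

end gen

section sqf

/-- a polynomial all whose derivatives vanish is constant, characteristic zero -/
lemma exists_pderiv_ne {C : Type u} [Field C] [CharZero C] {n : ℕ} (F : MvPolynomial (Fin n) C)
    (hF : Irreducible F) : ∃ j, pderiv j F ≠ 0 := by
  classical
  by_contra hcon
  push Not at hcon
  have h1 : F = MvPolynomial.C (coeff 0 F) := by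
    ext m
    rw [coeff_C]
    split_ifs with hm
    · rw [hm]
    · obtain ⟨j, hj⟩ : ∃ j, m j ≠ 0 := by
        by_contra h
        push Not at h
        apply hm
        ext j
        rw [h j]
        rfl
      have h2 := congrArg (coeff (m - Finsupp.single j 1)) (hcon j)
      rw [coeff_pderiv, coeff_zero] at h2
      have h3 : m - Finsupp.single j 1 + Finsupp.single j 1 = m := by
        ext i
        rw [Finsupp.add_apply, Finsupp.tsub_apply, Finsupp.single_apply]
        split_ifs with h
        · rw [← h]
          omega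
        · omega
      rw [h3] at h2
      rcases mul_eq_zero.1 h2 with h4 | h4
      · exact h4
      · exfalso
        exact Nat.cast_add_one_ne_zero _ h4
  by_cases h2 : coeff 0 F = 0
  · rw [h2, map_zero] at h1
    exact hF.ne_zero h1
  · apply hF.not_isUnit
    rw [h1]
    exact (isUnit_iff_ne_zero.2 h2).map MvPolynomial.C

end sqf

end KFL_

/-- **KFL** -/
theorem t_KFL : S_kfl.{u} := by
  intro E K _ _ _ r y htop htr
  obtain ⟨j, hj⟩ := KFL_.exists_index r y htop htr
  obtain ⟨g0, hg0, hg⟩ := KFL_.exists_rel r y htr
  exact KFL_.exists_gen_at y j hj g0 hg0 hg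

/-- **SQF** -/
theorem t_SQF : S_sqf.{u} := by
  intro C E K _ _ _ _ _ _ _ _ n y F hF hFk G hG
  have hmap : ∀ g : MvPolynomial (Fin n) C,
      aeval y (map (algebraMap C E) g) = (aeval y g : K) := fun g => aeval_map_algebraMap E y g
  have h1 : G ∣ map (algebraMap C E) F := by
    rw [← hG, hmap, hFk]
  obtain ⟨c, hc⟩ := h1
  refine ⟨c, hc, fun h0 => ?_⟩
  obtain ⟨c', rfl⟩ := (hG c).1 h0
  obtain ⟨j, hj⟩ := KFL_.exists_pderiv_ne F hF
  have hG0 : aeval y G = 0 := (hG G).2 dvd_rfl
  have h2 : aeval y (pderiv j F) = 0 := by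
    rw [← hmap, ← pderiv_map, hc, Derivation.leibniz, Derivation.leibniz]
    simp only [smul_eq_mul, map_add, map_mul, hG0, zero_mul, add_zero]
  have h3 := (hFk _).1 h2
  obtain ⟨a, ha⟩ := h3
  have ha0 : a ≠ 0 := by
    rintro rfl
    rw [mul_zero] at ha
    exact hj ha
  have h4 := Pool.Agent.N98.totalDegree_pderiv_add_one_le j F hj
  have h5 := totalDegree_mul_of_isDomain hF.ne_zero ha0
  rw [← ha] at h5
  omega

end Pool.Agent.N808.PR
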