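import Pool.Agent.N808.PR.Stm4
import Pool.Agent.N98.RM.Loc

/-!
Roots of boundary functions are boundary functions, mixed characteristic (helper271; the algebra is
that of `Pool.Agent.N762.RC2.isBr_of_pow` of helper762).
-/

set_option autoImplicit false
set_option linter.unusedVariables false
set_option linter.unusedSectionVars false

universe u

namespace Pool.Agent.N808.PR.POW_

open IsLocalRing Pool.Agent.W418.LU2 Pool.Agent.N98.RM

section prime

variable {F : Type u} [Field F] {A : Subring F} {I : Type} {x : I → F}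

/-- A component which occurs in a `q`-th power with an exponent between `0` and `q` is empty. -/
theorem inv_mem_of_pow [Fintype I] (h : RegC A x) {g w : F} (hg : g ∈ A) (hw0 : w ≠ 0)
    (hw : w ∈ A) (hw' : w⁻¹ ∈ A) {q : ℕ} (ρ : I → ℕ) (hρ : ∀ i, ρ i < q)
    (hgq : g ^ q = w * ∏ i, x i ^ ρ i) (i : I) (hi : ρ i ≠ 0) : (x i)⁻¹ ∈ A := by
  classical
  by_contra hcon
  have hnu : ¬ IsUnit (⟨x i, h.mem i⟩ : A) := by
    intro hu
    apply hcon
    obtain ⟨c, hc⟩ := isUnit_iff_exists_inv.1 hu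
    have h3 : x i * c = 1 := congrArg Subtype.val hc
    rw [← eq_inv_of_mul_eq_one_right h3]
    exact c.2
  obtain ⟨m, hm, him⟩ := exists_max_ideal_of_mem_nonunits hnu
  have hmp : m.IsPrime := hm.isPrime
  let W := (LocalSubring.ofPrime A m).toSubring
  have hAW : A ≤ W := LocalSubring.le_ofPrime A m
  have hiW : (x i)⁻¹ ∉ W := not_inv_mem_ofPrime him (h.ne i)
  have hP := h.reg W (loc_ofPrime A m) hAW I id Function.injective_id
  have hreg := hP.reg
  let X : I → lo W A := fun l => ⟨x l, le_lo _ _ (h.mem l)⟩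
  have hXm : ∀ l, X l ∈ maximalIdeal (lo W A) ↔ (x l)⁻¹ ∉ W := by
    intro l
    rw [hP.mem_max]
    constructor
    · intro h3 h4
      exact h3 ⟨h.ne l, h4⟩
    · rintro h3 ⟨-, h4⟩
      exact h3 h4
  have hprime : Prime (X i) := by
    have h3 : Ind (fun _ : Unit => X i) :=
      hP.ind.ind (fun _ : Unit => i) (fun _ _ _ => rfl) (fun _ => (hXm i).2 hiW)
    exact h3.prime ()
  let G : lo W A := ⟨g, le_lo _ _ hg⟩
  let U : lo W A := ⟨w, le_lo _ _ hw⟩
  have hU : IsUnit U := by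
    rw [isUnit_lo_iff hAW]
    exact ⟨hw0, hAW hw'⟩
  have e1 : G ^ q = U * ∏ l, X l ^ ρ l := by
    apply Subtype.ext
    have e2 : ((∏ l, X l ^ ρ l : lo W A) : F) = ∏ l, x l ^ ρ l := by
      rw [SubmonoidClass.coe_finsetProd]
      rfl
    change g ^ q = w * ((∏ l, X l ^ ρ l : lo W A) : F)
    rw [e2]
    exact hgq
  have hsplit : (∏ l, X l ^ ρ l) = X i ^ ρ i * ∏ l ∈ Finset.univ.erase i, X l ^ ρ l :=
    (Finset.mul_prod_erase Finset.univ (fun l => X l ^ ρ l) (Finset.mem_univ i)).symm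
  have hdvd : X i ∣ G := by
    apply hprime.dvd_of_dvd_pow (n := q)
    rw [e1, hsplit]
    exact Dvd.dvd.mul_left (Dvd.dvd.mul_right (dvd_pow_self _ hi) _) _
  obtain ⟨b, hb⟩ := hdvd
  have h5 : X i ^ (q - ρ i) * b ^ q = U * ∏ l ∈ Finset.univ.erase i, X l ^ ρ l := by
    apply mul_left_cancel₀ (pow_ne_zero (ρ i) hprime.ne_zero)
    have e3 : X i ^ ρ i * (X i ^ (q - ρ i) * b ^ q) = X i ^ q * b ^ q := by
      rw [← mul_assoc, ← pow_add]
      congr 2
      have := hρ i
      omega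
    rw [e3, ← mul_pow, ← hb, e1, hsplit]
    ring
  have h3 : X i ∣ ∏ l ∈ Finset.univ.erase i, X l ^ ρ l := by
    rw [← hU.dvd_mul_left, ← h5]
    exact Dvd.dvd.mul_right (dvd_pow_self _ (by have := hρ i; omega)) _
  obtain ⟨l, hl0, hl⟩ := hprime.exists_mem_finset_dvd h3
  have hli : l ≠ i := Finset.ne_of_mem_erase hl0
  have hl' := hprime.dvd_of_dvd_pow hl
  by_cases hlm : (x l)⁻¹ ∈ W
  · have h4 : IsUnit (X l) := by
      rw [isUnit_lo_iff hAW]
      exact ⟨h.ne l, hlm⟩
    exact hprime.not_isUnit (isUnit_of_dvd_unit hl' h4)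
  · have h4 : Ind (fun b : Bool => X (if b then i else l)) :=
      hP.ind.ind (fun b : Bool => if b then i else l) (by
        intro a b hab
        cases a <;> cases b <;> simp_all) (by
        intro b
        cases b
        · exact (hXm l).2 hlm
        · exact (hXm i).2 hiW)
    exact h4.not_dvd (i := true) (j := false) (by simp) hl'

end prime

section ism

variable {k K : Type u} [CommRing k] [Field K] [Algebra k K] {I : Type} [Fintype I]

/-- Roots of elements of a normal ring. -/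
lemma mem_of_pow_mem [IsNoetherianRing k] {A : Subalgebra k K} (hft : Algebra.FiniteType k A)
    {x : I → K} (hA : RegC A.toSubring x)
    (hfr : ∀ y : K, ∃ a ∈ A, ∃ b ∈ A, b ≠ 0 ∧ y = a * b⁻¹) {q : ℕ} (hq : q ≠ 0) {z : K}
    (hz : z ^ q ∈ A) : z ∈ A := by
  have h1 : IsNoetherianRing A := noeth_chart hft
  have h1' : IsNoetherianRing A.toSubring := h1
  have hic : IsIntegrallyClosed A.toSubring := hA.isIntegrallyClosed
  have hF : IsFractionRing A.toSubring K := by
    refine IsFractionRing.of_field _ _ fun z => ?_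
    obtain ⟨u, hu, v, hv, hv0, h⟩ := hfr z
    exact ⟨⟨u, hu⟩, ⟨v, hv⟩, by rw [h, div_eq_mul_inv]; rfl⟩
  have h1 : IsIntegral A.toSubring z := by
    refine IsIntegral.of_pow (Nat.pos_of_ne_zero hq) ?_
    have h3 : z ^ q = algebraMap A.toSubring K ⟨z ^ q, hz⟩ := rfl
    rw [h3]
    exact isIntegral_algebraMap
  obtain ⟨w, hw⟩ := IsIntegrallyClosed.isIntegral_iff.1 h1
  rw [← hw]
  exact w.2

/-- **Roots of monomials.** -/
theorem isM_of_pow [IsNoetherianRing k] {A : Subalgebra k K} (hft : Algebra.FiniteType k A)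
    {x : I → K} (hA : RegC A.toSubring x)
    (hfr : ∀ y : K, ∃ a ∈ A, ∃ b ∈ A, b ≠ 0 ∧ y = a * b⁻¹) {g : K} {γ : I → ℤ} {q : ℕ}
    (hq : q ≠ 0) (h : IsM A x (g ^ q) γ) : IsM A x g (fun i => γ i / q) := by
  classical
  have hx : ∀ i, x i ∈ A := hA.mem
  have hx0 : ∀ i, x i ≠ 0 := hA.ne
  obtain ⟨w, hw0, hw, hw', hg⟩ := h
  have hqz : (q : ℤ) ≠ 0 := Int.natCast_ne_zero.2 hq
  set ρ : I → ℤ := fun i => γ i % q with hρ
  have hρ0 : ∀ i, 0 ≤ ρ i := fun i => Int.emod_nonneg _ hqz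
  have hρq : ∀ i, ρ i < q := fun i => Int.emod_lt_of_pos _ (by positivity)
  set m : K := ∏ i, x i ^ (γ i / (q : ℤ)) with hm
  have hm0 : m ≠ 0 := Finset.prod_ne_zero_iff.2 fun i _ => zpow_ne_zero _ (hx0 i)
  have hmq : (∏ i, x i ^ γ i) = m ^ q * ∏ i, x i ^ ρ i := by
    rw [hm, ← Finset.prod_pow, ← Finset.prod_mul_distrib]
    refine Finset.prod_congr rfl fun i _ => ?_
    rw [← zpow_natCast (x i ^ (γ i / (q : ℤ))), ← zpow_mul, ← zpow_add₀ (hx0 i)]
    congr 1
    have := Int.ediv_mul_add_emod (γ i) q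
    rw [hρ]
    exact this.symm
  set g' : K := g / m with hg'
  have hgm : g = g' * m := by rw [hg', div_mul_cancel₀ _ hm0]
  have hgq : g' ^ q = w * ∏ i, x i ^ ρ i := by
    rw [hg', div_pow, hg, hmq]
    field_simp
  have hρA : (∏ i, x i ^ ρ i) ∈ A := A.prod_mem fun i _ => zpow_mem_of (hx i) (Or.inl (hρ0 i))
  have hg'A : g' ∈ A := mem_of_pow_mem hft hA hfr hq (by rw [hgq]; exact A.mul_mem hw hρA)
  -- the components which occur are empty
  have hunit : ∀ i, ρ i ≠ 0 → (x i)⁻¹ ∈ A := by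
    intro i hi
    refine inv_mem_of_pow hA (g := g') (w := w) hg'A hw0 hw hw' (q := q) (fun i => (ρ i).toNat)
      (fun i => ?_) ?_ i ?_
    · have h1 := hρ0 i
      have h2 := hρq i
      omega
    · rw [hgq]
      congr 1
      refine Finset.prod_congr rfl fun l _ => ?_
      rw [← zpow_natCast]
      congr 1
      have h1 := hρ0 l
      omega
    · have h1 := hρ0 i
      omega
  have hginv : g'⁻¹ ∈ A := by
    refine mem_of_pow_mem hft hA hfr hq ?_
    rw [inv_pow, hgq, mul_inv, ← Finset.prod_inv_distrib]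
    refine A.mul_mem hw' (A.prod_mem fun i _ => ?_)
    rw [← zpow_neg]
    by_cases h : ρ i = 0
    · rw [h, neg_zero, zpow_zero]
      exact A.one_mem
    · exact zpow_mem_of (hx i) (Or.inr (hunit i h))
  refine ⟨g', ?_, hg'A, hginv, hgm⟩
  intro h0
  have h1 : g' ^ q ≠ 0 := by
    rw [hgq]
    exact mul_ne_zero hw0 (Finset.prod_ne_zero_iff.2 fun i _ => zpow_ne_zero _ (hx0 i))
  exact h1 (by rw [h0, zero_pow hq])

end ism

end Pool.Agent.N808.PR.POW_

namespace Pool.Agent.N808.PR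

/-- **Roots of boundary functions.** -/
theorem t_POW : S_pow.{u} := by
  intro k K _ _ _ _ T I _ _ M hFr g q hq h
  obtain ⟨N, hN, γ, h⟩ := h
  refine ⟨N, hN, fun i => γ i / q, fun t => ?_⟩
  refine POW_.isM_of_pow (M.ft t) (M.rg t) (hFr t) hq ?_
  rw [← pow_mul, mul_comm N q, pow_mul]
  exact h t

end Pool.Agent.N808.PR
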