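import Pool.Agent.N808.PR.Step

/-!
Fibre products of varieties of bounded degree: the induction.

helper808; built on the library of helper98.
-/

set_option autoImplicit false
set_option linter.unusedVariables false
set_option linter.unusedSectionVars false

universe u

open MvPolynomial Pool.Agent.N98 Pool.Agent.N808.RC

namespace Pool.Agent.N808.PR

section zero

variable {k κ K : Type u} [Field κ] [Field K] [Algebra κ K]

theorem rms_zero [CommRing k] [IsNoetherianRing k] [Algebra k κ] [Algebra k K]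
    [IsScalarTower k κ K] (hE : RM.HasRM k κ) (hs : Function.Surjective (algebraMap κ K)) :
    RMS k K {z | z ≠ 0} := by
  classical
  intro H _ h hh
  have := Fintype.ofFinite H
  choose c hc using fun a => hs (h a)
  have hc0 : ∀ a, c a ≠ 0 := by
    intro a h0
    apply hh a
    rw [← hc a, h0, map_zero]
  obtain ⟨T, I, hT, hI, M, hF, hfr⟩ := hE H c hc0
  refine ⟨T, I, hT, hI, RM.mapLM M, ?_, ?_⟩
  · intro t y
    obtain ⟨e, rfl⟩ := hs y
    obtain ⟨a, ha, b, hb, hb0, rfl⟩ := hfr t e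
    exact ⟨algebraMap κ K a, ⟨a, ha, rfl⟩, algebraMap κ K b, ⟨b, hb, rfl⟩,
      (_root_.map_ne_zero _).2 hb0, by rw [map_mul, map_inv₀]⟩
  · intro a
    rw [← hc a]
    exact RM.isBr_map (RM.IsB.br (hF a))

theorem lms_zero [Field k] [Algebra k κ] [Algebra k K]
    [IsScalarTower k κ K] (hE : Pool.Agent.W418.LCI.HasLM k κ)
    (hs : Function.Surjective (algebraMap κ K)) :
    LMS k K {z | z ≠ 0} := by
  classical
  intro H _ h hh
  have := Fintype.ofFinite H
  choose c hc using fun a => hs (h a)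
  have hc0 : ∀ a, c a ≠ 0 := by
    intro a h0
    apply hh a
    rw [← hc a, h0, map_zero]
  obtain ⟨T, I, hT, hI, M, Γ, hF, hfr⟩ := hE H c hc0
  refine ⟨T, I, hT, hI, Pool.Agent.W498.Tor.mapLM M, ?_, ?_⟩
  · intro t y
    obtain ⟨e, rfl⟩ := hs y
    obtain ⟨a, ha, b, hb, hb0, rfl⟩ := hfr t e
    exact ⟨algebraMap κ K a, ⟨a, ha, rfl⟩, algebraMap κ K b, ⟨b, hb, rfl⟩,
      (_root_.map_ne_zero _).2 hb0, by rw [map_mul, map_inv₀]⟩
  · intro a
    rw [← hc a]
    exact isBr_map (IsB.br ⟨Γ a, fun t => hF a t⟩)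

end zero

section prod

variable {κ : Type u} [Field κ]

/-- The constants, and the polynomials of degree at most `d` in one of the groups of
coordinates. -/
def pol {g : ℕ} (L : Fin g → Type u) [∀ ν, Field (L ν)] [∀ ν, Algebra κ (L ν)] (N : Fin g → ℕ)
    (x : ∀ ν, Fin (N ν) → L ν) (d : ℕ) {K : Type u} [Field K] [Algebra κ K]
    (φ : ∀ ν, L ν →ₐ[κ] K) : Set K :=
  {z | z ≠ 0 ∧ ((∃ c : κ, z = algebraMap κ K c) ∨ ∃ (ν : Fin g) (P : MvPolynomial (Fin (N ν)) κ),
    P.totalDegree ≤ d ∧ z = φ ν (aeval (x ν) P))}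

/-- Successive linear disjointness. -/
def LDJ {g : ℕ} (L : Fin g → Type u) [∀ ν, Field (L ν)] [∀ ν, Algebra κ (L ν)] {K : Type u}
    [Field K] [Algebra κ K] (φ : ∀ ν, L ν →ₐ[κ] K) : Prop :=
  ∀ (ν : Fin g) (m : ℕ) (a : Fin m → L ν) (e : Fin m → K), LinearIndependent κ a →
    (∀ i, e i ∈ ⨆ μ : {μ : Fin g // μ < ν}, (φ μ).fieldRange) → ∑ i, e i * φ ν (a i) = 0 →
    ∀ i, e i = 0

variable {g : ℕ} (L : Fin (g + 1) → Type u) [∀ ν, Field (L ν)] [∀ ν, Algebra κ (L ν)] {K : Type u}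
    [Field K] [Algebra κ K] (φ : ∀ ν, L ν →ₐ[κ] K)

/-- The field generated by the first factors. -/
def EE : IntermediateField κ K := ⨆ ν : Fin g, (φ ν.castSucc).fieldRange

lemma mem_EE (ν : Fin g) (a : L ν.castSucc) : φ ν.castSucc a ∈ EE L φ :=
  (le_iSup (fun ν : Fin g => (φ ν.castSucc).fieldRange) ν) ⟨a, rfl⟩

/-- The embeddings of the first factors. -/
def φE (ν : Fin g) : L ν.castSucc →ₐ[κ] EE L φ :=
  (φ ν.castSucc).codRestrict (EE L φ).toSubalgebra (mem_EE L φ ν)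

lemma coe_φE (ν : Fin g) (a : L ν.castSucc) : ((φE L φ ν a : EE L φ) : K) = φ ν.castSucc a := rfl

lemma map_range (ν : Fin g) :
    ((φE L φ ν).fieldRange).map (EE L φ).val = (φ ν.castSucc).fieldRange := by
  rw [AlgHom.map_fieldRange]
  rfl

lemma gen_EE : (⨆ ν, (φE L φ ν).fieldRange) = ⊤ := by
  rw [eq_top_iff]
  intro y _
  have h1 : (EE L φ).val y ∈ (⨆ ν, (φE L φ ν).fieldRange).map (EE L φ).val := by
    rw [IntermediateField.map_iSup]
    simp only [map_range]
    exact y.2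
  obtain ⟨z, hz, hzy⟩ := h1
  have h2 : z = y := (EE L φ).val.injective hzy
  rwa [← h2]

lemma ldj_EE (h : LDJ L φ) : LDJ (fun ν : Fin g => L ν.castSucc) (φE L φ) := by
  intro ν m a e ha he hs i
  have h1 : ∀ i, ((e i : EE L φ) : K) ∈ ⨆ μ : {μ : Fin (g + 1) // μ < ν.castSucc},
      (φ μ).fieldRange := by
    intro i
    have h2 : (EE L φ).val (e i) ∈ (⨆ μ : {μ : Fin g // μ < ν}, (φE L φ μ).fieldRange).map
        (EE L φ).val := ⟨e i, he i, rfl⟩
    rw [IntermediateField.map_iSup] at h2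
    have h3 : (⨆ μ : {μ : Fin g // μ < ν}, ((φE L φ μ).fieldRange).map (EE L φ).val) ≤
        ⨆ μ : {μ : Fin (g + 1) // μ < ν.castSucc}, (φ μ).fieldRange := by
      refine iSup_le fun μ => ?_
      rw [map_range]
      exact le_iSup (fun μ : {μ : Fin (g + 1) // μ < ν.castSucc} => (φ μ).fieldRange)
        ⟨μ.1.castSucc, by
          rw [Fin.castSucc_lt_castSucc_iff]
          exact μ.2⟩
    exact h3 h2
  have h3 := h ν.castSucc m a (fun i => (e i : K)) ha h1 (by
    have h4 := congrArg (EE L φ).val hs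
    rw [map_sum, map_zero] at h4
    rw [← h4]
    exact Finset.sum_congr rfl fun j _ => rfl) i
  exact Subtype.ext h3

lemma ldj_last (h : LDJ L φ) (m : ℕ) (a : Fin m → L (Fin.last g)) (ha : LinearIndependent κ a) :
    LinearIndependent (EE L φ) fun i => φ (Fin.last g) (a i) := by
  rw [Fintype.linearIndependent_iff]
  intro e he i
  have h1 : ∀ i, ((e i : EE L φ) : K) ∈ ⨆ μ : {μ : Fin (g + 1) // μ < Fin.last g},
      (φ μ).fieldRange := by
    intro i
    have h3 : EE L φ ≤ ⨆ μ : {μ : Fin (g + 1) // μ < Fin.last g}, (φ μ).fieldRange :=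
      iSup_le fun ν => le_iSup
        (fun μ : {μ : Fin (g + 1) // μ < Fin.last g} => (φ μ).fieldRange)
        ⟨ν.castSucc, Fin.castSucc_lt_last ν⟩
    exact h3 (e i).2
  exact Subtype.ext (h (Fin.last g) m a (fun i => (e i : K)) ha h1 he i)

lemma adjoin_last (hgen : (⨆ ν, (φ ν).fieldRange) = ⊤) {n : ℕ} (x : Fin n → L (Fin.last g))
    (htop : IntermediateField.adjoin κ (Set.range x) = ⊤) :
    IntermediateField.adjoin (EE L φ) (Set.range fun i => φ (Fin.last g) (x i)) = ⊤ := by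
  rw [eq_top_iff]
  have h1 : (⨆ ν, (φ ν).fieldRange) ≤ (IntermediateField.adjoin (EE L φ)
      (Set.range fun i => φ (Fin.last g) (x i))).restrictScalars κ := by
    refine iSup_le fun ν => ?_
    refine Fin.lastCases ?_ (fun ν => ?_) ν
    · rintro _ ⟨a, rfl⟩
      have h2 : a ∈ IntermediateField.adjoin κ (Set.range x) := by rw [htop]; trivial
      have h3 : IntermediateField.adjoin κ (Set.range x) ≤
          ((IntermediateField.adjoin (EE L φ)
            (Set.range fun i => φ (Fin.last g) (x i))).restrictScalars κ).comap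
              (φ (Fin.last g)) := by
        rw [IntermediateField.adjoin_le_iff]
        rintro _ ⟨i, rfl⟩
        exact IntermediateField.subset_adjoin (EE L φ) _ ⟨i, rfl⟩
      exact h3 h2
    · rintro _ ⟨a, rfl⟩
      exact (IntermediateField.adjoin (EE L φ)
        (Set.range fun i => φ (Fin.last g) (x i))).algebraMap_mem ⟨_, mem_EE L φ ν a⟩
  rw [hgen] at h1
  intro y _
  exact h1 trivial

lemma pol_sub (N : Fin (g + 1) → ℕ) (x : ∀ ν, Fin (N ν) → L ν) (d : ℕ) :
    pol L N x d φ ⊆ ext (E := EE L φ) (φ (Fin.last g))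
      (pol (fun ν : Fin g => L ν.castSucc) (fun ν => N ν.castSucc) (fun ν => x ν.castSucc) d
        (φE L φ)) (x (Fin.last g)) d := by
  rintro z ⟨hz0, ⟨c, rfl⟩ | ⟨ν, P, hP, hz⟩⟩
  · left
    refine ⟨algebraMap κ (EE L φ) c, ⟨?_, Or.inl ⟨c, rfl⟩⟩, rfl⟩
    intro h
    apply hz0
    exact congrArg (EE L φ).val h
  · revert P
    refine Fin.lastCases ?_ (fun ν => ?_) ν
    · intro P hP hz
      exact Or.inr ⟨P, hP, hz, hz0⟩
    · intro P hP hz
      left
      refine ⟨φE L φ ν (aeval (x ν.castSucc) P), ⟨?_, Or.inr ⟨ν, P, hP, rfl⟩⟩, hz⟩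
      intro h
      apply hz0
      rw [hz]
      exact congrArg (EE L φ).val h

lemma surj_zero {K : Type u} [Field K] [Algebra κ K] (L : Fin 0 → Type u) [∀ ν, Field (L ν)]
    [∀ ν, Algebra κ (L ν)] (φ : ∀ ν, L ν →ₐ[κ] K) (hgen : (⨆ ν, (φ ν).fieldRange) = ⊤) :
    Function.Surjective (algebraMap κ K) := by
  intro y
  have hy : y ∈ (⨆ ν, (φ ν).fieldRange) := by rw [hgen]; trivial
  rw [iSup_of_empty, IntermediateField.mem_bot] at hy
  exact hy

lemma pol_zero {K : Type u} [Field K] [Algebra κ K] (L : Fin 0 → Type u) [∀ ν, Field (L ν)]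
    [∀ ν, Algebra κ (L ν)] (N : Fin 0 → ℕ) (x : ∀ ν, Fin (N ν) → L ν) (d : ℕ)
    (φ : ∀ ν, L ν →ₐ[κ] K) : pol L N x d φ ⊆ {z | z ≠ 0} := fun z hz => hz.1

end prod

section main

variable {κ : Type u} [Field κ] [Infinite κ]

/-- **Fibre products of varieties of bounded degree**, models over noetherian rings. -/
theorem prod_rms {k : Type u} [CommRing k] [IsNoetherianRing k] [Algebra k κ] (hker0 : S_ker.{u})
    (hhyp : S_rhyp.{u}) (hE : RM.HasRM k κ) (d : ℕ) (hd : 1 ≤ d) :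
    ∀ (g : ℕ) (L : Fin g → Type u) [∀ ν, Field (L ν)] [∀ ν, Algebra κ (L ν)] (N : Fin g → ℕ)
    (x : ∀ ν, Fin (N ν) → L ν) (r δ C0 : Fin g → ℕ),
    (∀ ν, IntermediateField.adjoin κ (Set.range (x ν)) = ⊤) →
    (∀ ν, Algebra.trdeg κ (L ν) = r ν) →
    (∀ ν (t : ℕ), (r ν).factorial * Module.finrank κ (img κ (x ν) t) ≤
      δ ν * (t + C0 ν) ^ (r ν)) →
    (∀ ν, IsUnit ((Nat.factorial ((d * δ ν) ^ 2 ^ (r ν)) : ℕ) : k)) →
    ∀ (K : Type u) [Field K] [Algebra κ K] [Algebra k K] [IsScalarTower k κ K]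
    (φ : ∀ ν, L ν →ₐ[κ] K), (⨆ ν, (φ ν).fieldRange) = ⊤ → LDJ L φ →
    RMS k K (pol L N x d φ) := by
  intro g
  induction g with
  | zero =>
    intro L _ _ N x r δ C0 htop htr hδ hchar K _ _ _ _ φ hgen hld H _ h hh
    exact rms_zero hE (surj_zero L φ hgen) H h fun a => pol_zero L N x d φ (hh a)
  | succ g ih =>
    intro L _ _ N x r δ C0 htop htr hδ hchar K _ _ _ _ φ hgen hld H _ h hh
    have hs1 : IsScalarTower k κ (EE L φ) := IsScalarTower.of_algebraMap_eq fun a =>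
      Subtype.ext (IsScalarTower.algebraMap_apply k κ K a)
    have hs2 : IsScalarTower k (EE L φ) K := IsScalarTower.of_algebraMap_eq fun a => rfl
    have h1 := ih (fun ν => L ν.castSucc) (fun ν => N ν.castSucc) (fun ν => x ν.castSucc)
      (fun ν => r ν.castSucc) (fun ν => δ ν.castSucc) (fun ν => C0 ν.castSucc)
      (fun ν => htop ν.castSucc) (fun ν => htr ν.castSucc) (fun ν => hδ ν.castSucc)
      (fun ν => hchar ν.castSucc) (EE L φ) (φE L φ) (gen_EE L φ) (ldj_EE L φ hld)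
    exact step_rms (φ (Fin.last g)) hker0 hhyp _ h1 (fun c hc => ⟨(_root_.map_ne_zero _).2 hc,
      Or.inl ⟨c, rfl⟩⟩) (fun z hz => hz.1) (ldj_last L φ hld) (x (Fin.last g)) (htop _)
      (adjoin_last L φ hgen _ (htop _)) (r (Fin.last g)) (htr _) (δ (Fin.last g))
      (C0 (Fin.last g)) d hd (hδ _) (hchar _) H h fun a => pol_sub L φ N x d (hh a)

/-- **Fibre products of varieties of bounded degree**, models over fields. -/
theorem prod_lms {k : Type u} [Field k] [Algebra k κ] (hker0 : S_ker.{u})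
    (hhyp : S_lhyp.{u}) (hE : Pool.Agent.W418.LCI.HasLM k κ) (d : ℕ) (hd : 1 ≤ d) :
    ∀ (g : ℕ) (L : Fin g → Type u) [∀ ν, Field (L ν)] [∀ ν, Algebra κ (L ν)] (N : Fin g → ℕ)
    (x : ∀ ν, Fin (N ν) → L ν) (r δ C0 : Fin g → ℕ),
    (∀ ν, IntermediateField.adjoin κ (Set.range (x ν)) = ⊤) →
    (∀ ν, Algebra.trdeg κ (L ν) = r ν) →
    (∀ ν (t : ℕ), (r ν).factorial * Module.finrank κ (img κ (x ν) t) ≤
      δ ν * (t + C0 ν) ^ (r ν)) →
    (∀ ν, ((Nat.factorial ((d * δ ν) ^ 2 ^ (r ν)) : ℕ) : k) ≠ 0) →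
    ∀ (K : Type u) [Field K] [Algebra κ K] [Algebra k K] [IsScalarTower k κ K]
    (φ : ∀ ν, L ν →ₐ[κ] K), (⨆ ν, (φ ν).fieldRange) = ⊤ → LDJ L φ →
    LMS k K (pol L N x d φ) := by
  intro g
  induction g with
  | zero =>
    intro L _ _ N x r δ C0 htop htr hδ hchar K _ _ _ _ φ hgen hld H _ h hh
    exact lms_zero hE (surj_zero L φ hgen) H h fun a => pol_zero L N x d φ (hh a)
  | succ g ih =>
    intro L _ _ N x r δ C0 htop htr hδ hchar K _ _ _ _ φ hgen hld H _ h hh
    have hs1 : IsScalarTower k κ (EE L φ) := IsScalarTower.of_algebraMap_eq fun a =>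
      Subtype.ext (IsScalarTower.algebraMap_apply k κ K a)
    have hs2 : IsScalarTower k (EE L φ) K := IsScalarTower.of_algebraMap_eq fun a => rfl
    have h1 := ih (fun ν => L ν.castSucc) (fun ν => N ν.castSucc) (fun ν => x ν.castSucc)
      (fun ν => r ν.castSucc) (fun ν => δ ν.castSucc) (fun ν => C0 ν.castSucc)
      (fun ν => htop ν.castSucc) (fun ν => htr ν.castSucc) (fun ν => hδ ν.castSucc)
      (fun ν => hchar ν.castSucc) (EE L φ) (φE L φ) (gen_EE L φ) (ldj_EE L φ hld)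
    exact step_lms (φ (Fin.last g)) hker0 hhyp _ h1 (fun c hc => ⟨(_root_.map_ne_zero _).2 hc,
      Or.inl ⟨c, rfl⟩⟩) (fun z hz => hz.1) (ldj_last L φ hld) (x (Fin.last g)) (htop _)
      (adjoin_last L φ hgen _ (htop _)) (r (Fin.last g)) (htr _) (δ (Fin.last g))
      (C0 (Fin.last g)) d hd (hδ _) (hchar _) H h fun a => pol_sub L φ N x d (hh a)

end main

end Pool.Agent.N808.PR
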