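import Pool.Agent.N808.PR.Stm

/-!
Project PR (helper808), part RHYP (helper492, adapted from `Pool.Agent.N98.RM.Hyp`): hypersurfaces
with equation over a subfield, mixed characteristic.
-/

set_option autoImplicit false
set_option linter.unusedVariables false
set_option linter.unusedSimpArgs false

universe u

open Pool.Agent.W418.LU2 Pool.Agent.N98.RM

namespace Pool.Agent.N808.PR

theorem t_RHYP (h : S_rtn.{u}) : S_rhyp.{u} := by
  intro k C E K _ _ _ _ _ _ _ _ _ _ S hS hCS n D hD hchar x htop f hf hfD hker B Γ _ _ P g hP hPD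
    hgS hg0
  classical
  let R0 := MvPolynomial (Fin n) E
  let K' := FractionRing R0
  have hs1 : IsScalarTower k E K' := IsScalarTower.of_algebraMap_eq fun r => rfl
  have hs2 : IsScalarTower k R0 K' := inferInstance
  obtain ⟨hX1, hX2, hX3⟩ := frac_top (E := E) (n := n) K'
  obtain ⟨T, I, hT, hI, M, hFr, hMb, hMg, hMd⟩ := h k C E S hS hCS n D hD (fun _ => hchar) K'
    (fun i => algebraMap R0 K' (MvPolynomial.X i)) hX2 hX3 (Option B) Γ
    (fun o => o.elim f P) g (by
      rintro (_ | b)
      · intro h'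
        have h'' : f = 0 := h'
        apply hf.ne_zero
        rw [h'', map_zero]
      · intro h'
        have h'' : P b = 0 := h'
        apply hP b
        rw [h'', map_zero, map_zero]) (by
      rintro (_ | b)
      · exact hfD
      · exact hPD b) hgS
  generalize hFdef : MvPolynomial.map (algebraMap C E) f = F at hf hker
  obtain ⟨Q, π, hs, hQ, hinv, hg, hun, hrep⟩ := exists_loc (k := k) x htop F hf hker K'
  have hf0 : algebraMap R0 K' F ≠ 0 := by
    intro h
    exact hf.ne_zero (IsFractionRing.injective R0 K' (h.trans (map_zero _).symm))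
  have hMf : IsBr M (algebraMap R0 K' F) := by
    have := hMb none
    rw [← hX1, ← hFdef]
    exact this
  have hpf : pq π (algebraMap R0 K' F) = 0 := by
    rw [(hg F).2]
    exact (hker F).2 dvd_rfl
  have hdom : ∀ t, M.A t ≤ Q → ∀ q ∈ Q, ∃ a ∈ M.A t, ∃ b ∈ M.A t, pq π b ≠ 0 ∧ q * b = a := by
    intro t ht q hq
    have hne : ∀ {b : K'}, pq π b ≠ 0 → b ≠ 0 := by
      rintro b hb rfl
      exact hb (pq_zero π)
    let W := lo Q.toSubring (M.A t).toSubring
    have hW : ∀ y, y ∈ W ↔ ∃ a ∈ M.A t, ∃ b ∈ M.A t, pq π b ≠ 0 ∧ y * b = a := by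
      intro y
      constructor
      · rintro ⟨a, ha, b, hb, hb0, hbQ, rfl⟩
        exact ⟨a, ha, b, hb, pq_ne π hb0 (ht hb) hbQ, by
          rw [mul_assoc, inv_mul_cancel₀ hb0, mul_one]⟩
      · rintro ⟨a, ha, b, hb, hb0, hab⟩
        refine ⟨a, ha, b, hb, hne hb0, hinv b (ht hb) hb0, ?_⟩
        rw [← hab, mul_assoc, mul_inv_cancel₀ (hne hb0), mul_one]
    obtain ⟨hd1, hd2⟩ := hMd t
    have hAW : ∀ a ∈ M.A t, a ∈ W := fun a ha => le_lo _ _ ha
    have hWinv : ∀ b ∈ M.A t, pq π b ≠ 0 → b⁻¹ ∈ W := fun b hb hb0 =>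
      inv_mem_lo ht (hAW b hb) (hne hb0) (hinv b (ht hb) hb0)
    -- constants
    have hWE : ∀ e : E, algebraMap E K' e ∈ W := by
      intro e
      obtain ⟨a, b, ha, hb, hb0, he⟩ := hd1 e
      have hbπ : pq π (algebraMap E K' b) ≠ 0 := by
        have e1 : algebraMap E K' b = algebraMap R0 K' (MvPolynomial.C b) := rfl
        rw [e1, (hg _).2, MvPolynomial.aeval_C]
        exact (_root_.map_ne_zero _).2 hb0
      rw [he, map_mul, map_inv₀]
      exact W.mul_mem (hAW _ ha) (hWinv _ hb hbπ)
    -- variables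
    have hWX : ∀ i : Fin n, algebraMap R0 K' (MvPolynomial.X i) ∈ W := by
      intro i
      rcases hd2 i with h | h
      · exact hAW _ h
      · have h1 : algebraMap R0 K' (MvPolynomial.X i) ≠ 0 := by
          intro h0
          exact MvPolynomial.X_ne_zero i (IsFractionRing.injective R0 K' (h0.trans
            (map_zero _).symm))
        have h2 : pq π (algebraMap R0 K' (MvPolynomial.X i))⁻¹ ≠ 0 := by
          refine pq_ne π (inv_ne_zero h1) (ht h) ?_
          rw [inv_inv]
          exact (hg _).1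
        have h3 := hWinv _ h h2
        rwa [inv_inv] at h3
    have hWR : ∀ r : R0, algebraMap R0 K' r ∈ W := by
      intro r
      induction r using MvPolynomial.induction_on with
      | C a => exact hWE a
      | add p q hp hq => rw [map_add]; exact W.add_mem hp hq
      | mul_X p i hp => rw [map_mul]; exact W.mul_mem hp (hWX i)
    obtain ⟨r, s, hs', hrs⟩ := hrep q hq
    have hsW : (algebraMap R0 K' s)⁻¹ ∈ W := by
      obtain ⟨a, ha, b, hb, hb0, hab⟩ := (hW _).1 (hWR s)
      have hb1 : b ≠ 0 := by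
        rintro rfl
        exact hb0 (pq_zero π)
      have ha0 : pq π a ≠ 0 := by
        rw [← hab, pq_mul π (hg s).1 (ht hb), (hg s).2]
        exact mul_ne_zero hs' hb0
      have e : (algebraMap R0 K' s)⁻¹ = b * a⁻¹ := by
        rw [← hab, mul_inv, mul_comm, mul_assoc, inv_mul_cancel₀ hb1, mul_one]
      rw [e]
      exact W.mul_mem (hAW _ hb) (hWinv a ha ha0)
    rw [← hW]
    have hs0 : algebraMap R0 K' s ≠ 0 := by
      intro h
      apply hs'
      have : s = 0 := IsFractionRing.injective R0 K' (h.trans (map_zero _).symm)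
      rw [this, map_zero]
    have e : q = algebraMap R0 K' r * (algebraMap R0 K' s)⁻¹ := by
      rw [← hrs, mul_assoc, mul_inv_cancel₀ hs0, mul_one]
    rw [e]
    exact W.mul_mem (hWR r) hsW
  obtain ⟨T', I', hT', hI', M', hFr', hM'⟩ := cut π hs hQ hinv (algebraMap R0 K' F) (hg F).1 hf0
    hpf hun M hMf hdom
  refine ⟨T', I', hT', hI', M', hFr', fun b => ?_, fun i => ?_⟩
  · have h1 : IsBr M (algebraMap R0 K' (MvPolynomial.map (algebraMap C E) (P b))) := by
      have := hMb (some b)
      rw [← hX1]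
      exact this
    have h2 := hM' _ (hg (MvPolynomial.map (algebraMap C E) (P b))).1
      (by rw [(hg (MvPolynomial.map (algebraMap C E) (P b))).2]; exact hP b) h1
    rwa [(hg (MvPolynomial.map (algebraMap C E) (P b))).2] at h2
  · have h1 : IsBr M (algebraMap R0 K' (MvPolynomial.C (g i))) := hMg i
    have h2 := hM' _ (hg (MvPolynomial.C (g i))).1
      (by
        rw [(hg (MvPolynomial.C (g i))).2, MvPolynomial.aeval_C]
        exact (_root_.map_ne_zero _).2 (hg0 i)) h1
    rwa [(hg (MvPolynomial.C (g i))).2, MvPolynomial.aeval_C] at h2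

end Pool.Agent.N808.PR
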