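import Pool.Agent.N808.PR.Stm2
import Pool.Agent.N808.RC.Step

/-!
Adjoining one element in mixed characteristic: a variable or a zero of a member of a family of
polynomials, where the family is closed under derivatives (adaptation of `mod_root` of helper762).
-/

set_option autoImplicit false
set_option linter.unusedVariables false
set_option linter.unusedSimpArgs false
set_option linter.unusedSectionVars false

universe u

open Polynomial Pool.Agent.N98.RM Pool.Agent.N808.RC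

namespace Pool.Agent.N808.PR

namespace ROOT_

section dv

variable {L : Type u} [Field L]

open Classical in
/-- The successive derivatives, as long as the degree is positive. -/
noncomputable def dv (f : L[X]) : ℕ → L[X]
  | 0 => f
  | j + 1 => if 1 ≤ (dv f j).natDegree then derivative (dv f j) else dv f j

lemma dv_mem {Φ : Set L[X]} (hder : ∀ f ∈ Φ, 1 ≤ f.natDegree → derivative f ∈ Φ) {f : L[X]}
    (hf : f ∈ Φ) (j : ℕ) : dv f j ∈ Φ := by
  induction j with
  | zero => exact hf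
  | succ j ih =>
    change (if 1 ≤ (dv f j).natDegree then derivative (dv f j) else dv f j) ∈ Φ
    split_ifs with h
    · exact hder _ ih h
    · exact ih

lemma natDegree_dv (f : L[X]) (j : ℕ) : (dv f j).natDegree ≤ f.natDegree - j := by
  induction j with
  | zero => exact le_rfl
  | succ j ih =>
    change (if 1 ≤ (dv f j).natDegree then derivative (dv f j) else dv f j).natDegree ≤ _
    split_ifs with h
    · have := natDegree_derivative_le (dv f j)
      omega
    · omega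

/-- A member of the family which vanishes at `z` and whose derivative does not vanish at `z`. -/
lemma exists_min {K : Type u} [Field K] [Algebra L K] {Φ : Set L[X]} (h0 : ∀ f ∈ Φ, f ≠ 0)
    (hder : ∀ f ∈ Φ, 1 ≤ f.natDegree → derivative f ∈ Φ) (z : K)
    (h : ∃ f ∈ Φ, aeval z f = 0) : ∃ G ∈ Φ, aeval z G = 0 ∧ aeval z (derivative G) ≠ 0 := by
  classical
  have hex : ∃ n : ℕ, ∃ f ∈ Φ, aeval z f = 0 ∧ f.natDegree = n := by
    obtain ⟨f, hf, hz⟩ := h
    exact ⟨_, f, hf, hz, rfl⟩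
  obtain ⟨G, hG, hGz, hGn⟩ := Nat.find_spec hex
  refine ⟨G, hG, hGz, fun h1 => ?_⟩
  have hpos : G.natDegree ≠ 0 := by
    intro h2
    have h3 := eq_C_of_natDegree_eq_zero h2
    have h4 : G.coeff 0 ≠ 0 := by
      intro h4
      apply h0 G hG
      rw [h3, h4, map_zero]
    rw [h3, aeval_C] at hGz
    exact h4 ((_root_.map_eq_zero _).1 hGz)
  have h2 := natDegree_derivative_lt hpos
  have h3 := hder G hG (Nat.one_le_iff_ne_zero.2 hpos)
  have h4 := Nat.find_min' hex ⟨derivative G, h3, h1, rfl⟩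
  omega

end dv

section fr

variable {L : Type u} [Field L]

lemma fr_aeval (P : L[X]) :
    aeval (algebraMap L[X] (FractionRing L[X]) X) P = algebraMap L[X] (FractionRing L[X]) P := by
  have h1 : (aeval (algebraMap L[X] (FractionRing L[X]) X) : L[X] →ₐ[L] FractionRing L[X]) =
      IsScalarTower.toAlgHom L L[X] (FractionRing L[X]) := by
    apply Polynomial.algHom_ext
    rw [aeval_X]
    rfl
  rw [h1]
  rfl

lemma fr_tr : Transcendental L (algebraMap L[X] (FractionRing L[X]) X) := by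
  rw [transcendental_iff]
  intro P hP
  rw [fr_aeval] at hP
  exact IsFractionRing.injective L[X] (FractionRing L[X]) (hP.trans (map_zero _).symm)

lemma fr_top : IntermediateField.adjoin L {algebraMap L[X] (FractionRing L[X]) X} = ⊤ := by
  rw [eq_top_iff]
  intro y _
  obtain ⟨a, b, hb, hab⟩ := IsFractionRing.div_surjective L[X] y
  rw [IntermediateField.mem_adjoin_simple_iff]
  exact ⟨a, b, by rw [fr_aeval, fr_aeval, hab]⟩

end fr

end ROOT_

open ROOT_

/-- **One element.** -/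
theorem t_ROOT : S_root.{u} := by
  intro k L K _ _ _ _ _ _ _ _ P hP Δ hΔ Φ h0 hdeg hX hder hconst hQ z htop halt
  classical
  intro B _ b hb'
  have hb : ∀ i, b i ∈ algebraMap L K '' P ∨ ∃ f ∈ Φ, b i = aeval z f := fun i => (hb' i).1
  have hb0 : ∀ i, b i ≠ 0 := fun i => (hb' i).2
  have hc1 : ∀ i : {i : B // b i ∈ algebraMap L K '' P}, ∃ a ∈ P, algebraMap L K a = b i :=
    fun i => i.2
  choose c hcP hbc using hc1
  have hc0 : ∀ i, c i ≠ 0 := by
    intro i h
    apply hb0 i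
    rw [← hbc, h, map_zero]
  have hc2 : ∀ i : {i : B // ∃ f ∈ Φ, b i = aeval z f}, ∃ f ∈ Φ, b i = aeval z f := fun i => i.2
  choose Gf hGΦ hbG using hc2
  -- the family
  obtain ⟨G, hG, hGz⟩ : ∃ G ∈ Φ, Transcendental L z ∨
      (aeval z G = 0 ∧ aeval z (derivative G) ≠ 0) := by
    rcases halt with h | h
    · exact ⟨X, hX, Or.inl h⟩
    · obtain ⟨f, hf, hfz⟩ := exists_min h0 hder z h
      exact ⟨f, hf, Or.inr hfz⟩
  let O := Option (Option {i : B // ∃ f ∈ Φ, b i = aeval z f})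
  let F0 : O → L[X] := fun o => o.elim X fun o => o.elim G Gf
  have hF0 : ∀ o, F0 o ∈ Φ := by
    rintro (_ | _ | i)
    · exact hX
    · exact hG
    · exact hGΦ i
  let BB : Type := O × Fin (Δ + 1)
  let F : BB → L[X] := fun β => dv (F0 β.1) β.2
  have hF : ∀ β, F β ∈ Φ := fun β => dv_mem hder (hF0 β.1) _
  have hQ' : ∀ β β' : BB, ∃ Q : L[X], 1 ≤ (F β).natDegree → (Q ≠ 0 ∧ Q.natDegree ≤ Δ ∧
      F β ∣ Q.comp (F β') ∧ ∀ n, Q.coeff n ≠ 0 → Q.coeff n ∈ P) := by
    intro β β'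
    by_cases h : 1 ≤ (F β).natDegree
    · obtain ⟨Q, hQ⟩ := hQ _ (hF β) _ (hF β') h
      exact ⟨Q, fun _ => hQ⟩
    · exact ⟨0, fun h' => absurd h' h⟩
  choose Q hQQ using hQ'
  let CC : Type := BB ⊕ (BB × BB × Fin (Δ + 1))
  let W : CC → L := Sum.elim (fun β => (F β).coeff 0) fun q => (Q q.1 q.2.1).coeff q.2.2
  obtain ⟨T, I, hT, hI, M, hFr, hM⟩ := hP ({x : CC // W x ∈ P ∧ W x ≠ 0} ⊕
      {i : B // b i ∈ algebraMap L K '' P}) (Sum.elim (fun x => W x.1) c)
    (by
      rintro (x | i)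
      · exact x.2
      · exact ⟨hcP i, hc0 i⟩)
  have p1' : ∀ {K' : Type u} [Field K'] [Algebra k K'] [Algebra L K'] [IsScalarTower k L K']
      (z' : K') (hz' : Transcendental L z') (htop' : IntermediateField.adjoin L {z'} = ⊤),
      ∃ (T' I' : Type) (_ : Finite T') (_ : Fintype I') (M' : LM (⊥ : Subalgebra k K') ⊤ T' I'),
        Frc M' ∧ (∀ b, IsBr M' (aeval z' (F b))) ∧ (∀ i, IsBr M' (algebraMap L K' (c i))) ∧
        ∀ t', (z' ∈ M'.A t' ∨ z'⁻¹ ∈ M'.A t') ∧ ∀ l : L, ∃ a b : L, algebraMap L K' a ∈ M'.A t' ∧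
          algebraMap L K' b ∈ M'.A t' ∧ b ≠ 0 ∧ l = a * b⁻¹ := by
    intro K' _ _ _ _ z' hz' htop'
    obtain ⟨T', I', h1, h2, M', h3, h4, h5, h6⟩ := p1 M hFr z' hz' htop' Δ hΔ
      (Set.range (Sum.elim (fun x : {x : CC // W x ∈ P ∧ W x ≠ 0} => W x.1) c))
      (by
        rintro _ ⟨i, rfl⟩
        exact hM i) F (fun β => h0 _ (hF β)) (fun β => hdeg _ (hF β))
      (by
        rintro ⟨o, j⟩ hβ
        have h1 : (dv (F0 o) j).natDegree ≤ (F0 o).natDegree - j := natDegree_dv _ _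
        have h2 : 1 ≤ (dv (F0 o) j).natDegree := hβ
        have h3 := hdeg _ (hF0 o)
        have hj : (j : ℕ) + 1 < Δ + 1 := by omega
        refine ⟨(o, ⟨j + 1, hj⟩), ?_⟩
        change (if 1 ≤ (dv (F0 o) j).natDegree then derivative (dv (F0 o) j) else dv (F0 o) j) = _
        rw [if_pos h2])
      ⟨(none, ⟨0, Nat.succ_pos Δ⟩), rfl⟩
      (by
        intro β hβ
        have h1 : (F β).coeff 0 ∈ P := hconst _ (hF β) hβ
        have h2 : (F β).coeff 0 ≠ 0 := by
          intro h2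
          apply h0 _ (hF β)
          rw [eq_C_of_natDegree_eq_zero hβ, h2, map_zero]
        exact ⟨Sum.inl ⟨Sum.inl β, h1, h2⟩, rfl⟩)
      (by
        intro β β' hβ
        obtain ⟨h1, h2, h3, h4⟩ := hQQ β β' hβ
        refine ⟨Q β β', h1, h2, h3, fun n hn => ?_⟩
        have h5 := le_natDegree_of_ne_zero hn
        exact ⟨Sum.inl ⟨Sum.inr (β, β', ⟨n, by omega⟩), h4 n hn, hn⟩, rfl⟩)
    refine ⟨T', I', h1, h2, M', h3, h4, fun i => h5 _ ⟨Sum.inr i, rfl⟩, fun t' => ?_⟩
    obtain ⟨hz', t, ht⟩ := h6 t'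
    refine ⟨hz', fun l => ?_⟩
    obtain ⟨a, ha, b, hb, hb0, hl⟩ := hFr t l
    exact ⟨a, b, ht ⟨a, ha, rfl⟩, ht ⟨b, hb, rfl⟩, hb0, hl⟩
  rcases hGz with hz | ⟨hGz, hGz'⟩
  · obtain ⟨T', I', hT', hI', M', hFr', hMF, hMc, -⟩ := p1' z hz htop
    refine ⟨T', I', hT', hI', M', hFr', fun i => ?_⟩
    rcases hb i with h | h
    · rw [← hbc ⟨i, h⟩]
      exact hMc ⟨i, h⟩
    · rw [hbG ⟨i, h⟩]
      exact hMF (some (some ⟨i, h⟩), ⟨0, Nat.succ_pos Δ⟩)
  -- the restriction to a zero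
  let K' := FractionRing L[X]
  have hs1 : IsScalarTower k L K' := IsScalarTower.of_algebraMap_eq fun r => rfl
  have hs2 : IsScalarTower k L[X] K' := inferInstance
  obtain ⟨T', I', hT', hI', M', hFr', hMF, hMc, hMd⟩ := p1' (K' := K')
    (algebraMap L[X] K' X) fr_tr fr_top
  have hint : IsIntegral L z := by
    have halg : IsAlgebraic L z := ⟨G, h0 _ hG, hGz⟩
    exact halg.isIntegral
  have hMf : IsBr M' (algebraMap L[X] K' G) := by
    have := hMF (some none, ⟨0, Nat.succ_pos Δ⟩)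
    rw [← fr_aeval]
    exact this
  obtain ⟨T'', I'', hT'', hI'', M'', hFr'', hM''⟩ := cutP (k := k) hint htop G hGz hGz' K' M' hMf
    (fun t => (hMd t).2) (fun t => (hMd t).1)
  refine ⟨T'', I'', hT'', hI'', M'', hFr'', fun i => ?_⟩
  rcases hb i with h | h
  · have h2 := hM'' (C (c ⟨i, h⟩)) (by
      rw [aeval_C]
      exact (_root_.map_ne_zero _).2 (hc0 ⟨i, h⟩)) (by
      have e1 : algebraMap L[X] K' (C (c ⟨i, h⟩)) = algebraMap L K' (c ⟨i, h⟩) :=
        (IsScalarTower.algebraMap_apply L L[X] K' (c ⟨i, h⟩)).symm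
      rw [e1]
      exact hMc ⟨i, h⟩)
    rw [aeval_C, hbc ⟨i, h⟩] at h2
    exact h2
  · have h1 : IsBr M' (algebraMap L[X] K' (Gf ⟨i, h⟩)) := by
      have := hMF (some (some ⟨i, h⟩), ⟨0, Nat.succ_pos Δ⟩)
      rw [← fr_aeval]
      exact this
    have h2 := hM'' (Gf ⟨i, h⟩) (by
      rw [← hbG ⟨i, h⟩]
      exact hb0 i) h1
    rwa [← hbG ⟨i, h⟩] at h2

end Pool.Agent.N808.PR
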