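import Pool.Agent.N98.RM.Hyp
import Pool.Agent.N98.Hyp
import Pool.Agent.N98.Rel

/-!
Fibre products of varieties of bounded degree: definitions and statements of the parts.
-/

set_option autoImplicit false
set_option linter.unusedVariables false

universe u

open MvPolynomial

namespace Pool.Agent.N808.PR

/-! ### Models over noetherian rings (mixed characteristic) -/

/-- Each finite family of elements of `S` consists of boundary functions of some log regular
model. -/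
def RMS (k E : Type u) [CommRing k] [Field E] [Algebra k E] (S : Set E) : Prop :=
  ∀ (H : Type) [Finite H] (h : H → E), (∀ a, h a ∈ S) →
    ∃ (T I : Type) (_ : Finite T) (_ : Fintype I)
      (M : Pool.Agent.N98.RM.LM (⊥ : Subalgebra k E) ⊤ T I),
      Pool.Agent.N98.RM.Frc M ∧ ∀ a, Pool.Agent.N98.RM.IsBr M (h a)

/-- RTN: families of polynomials of bounded degree with coefficients in the subfield `C` of `E`
(compare `Pool.Agent.N98.RM.tn`). -/
def S_rtn : Prop := ∀ (k C E : Type u) [CommRing k] [IsNoetherianRing k] [Field C] [Field E]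
  [Algebra C E] [Algebra k E] (S : Set E), RMS k E S → (∀ c : C, c ≠ 0 → algebraMap C E c ∈ S) →
  ∀ (n D : ℕ), 1 ≤ D → (n ≠ 0 → IsUnit ((Nat.factorial (D ^ 2 ^ (n - 1)) : ℕ) : k)) →
  ∀ (K : Type u) [Field K] [Algebra E K] [Algebra k K] [IsScalarTower k E K] (x : Fin n → K),
  AlgebraicIndependent E x → IntermediateField.adjoin E (Set.range x) = ⊤ →
  ∀ (B Γ : Type) [Finite B] [Finite Γ] (P : B → MvPolynomial (Fin n) C) (g : Γ → E),
  (∀ b, P b ≠ 0) → (∀ b, (P b).totalDegree ≤ D) → (∀ i, g i ∈ S) →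
  ∃ (T I : Type) (_ : Finite T) (_ : Fintype I)
    (M : Pool.Agent.N98.RM.LM (⊥ : Subalgebra k K) ⊤ T I),
    Pool.Agent.N98.RM.Frc M ∧
    (∀ b, Pool.Agent.N98.RM.IsBr M (aeval x (map (algebraMap C E) (P b)))) ∧
    (∀ i, Pool.Agent.N98.RM.IsBr M (algebraMap E K (g i))) ∧
    ∀ t, (∀ e : E, ∃ a b : E, algebraMap E K a ∈ M.A t ∧ algebraMap E K b ∈ M.A t ∧ b ≠ 0 ∧
      e = a * b⁻¹) ∧ ∀ i, x i ∈ M.A t ∨ (x i)⁻¹ ∈ M.A t

/-- RHYP: hypersurfaces with equation over the subfield `C` of `E`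
(compare `Pool.Agent.N98.RM.hyp`). -/
def S_rhyp : Prop := ∀ (k C E K : Type u) [CommRing k] [IsNoetherianRing k] [Field C] [Field E]
  [Algebra C E] [Algebra k E] [Field K] [Algebra E K] [Algebra k K] [IsScalarTower k E K]
  (S : Set E), RMS k E S → (∀ c : C, c ≠ 0 → algebraMap C E c ∈ S) →
  ∀ (n D : ℕ), 1 ≤ D → IsUnit ((Nat.factorial (D ^ 2 ^ (n - 1)) : ℕ) : k) →
  ∀ (x : Fin n → K), IntermediateField.adjoin E (Set.range x) = ⊤ →
  ∀ (f : MvPolynomial (Fin n) C), Irreducible (map (algebraMap C E) f) → f.totalDegree ≤ D →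
  (∀ g : MvPolynomial (Fin n) E, aeval x g = 0 ↔ map (algebraMap C E) f ∣ g) →
  ∀ (B Γ : Type) [Finite B] [Finite Γ] (P : B → MvPolynomial (Fin n) C) (g : Γ → E),
  (∀ b, aeval x (map (algebraMap C E) (P b)) ≠ 0) → (∀ b, (P b).totalDegree ≤ D) →
  (∀ i, g i ∈ S) → (∀ i, g i ≠ 0) →
  ∃ (T I : Type) (_ : Finite T) (_ : Fintype I)
    (M : Pool.Agent.N98.RM.LM (⊥ : Subalgebra k K) ⊤ T I),
    Pool.Agent.N98.RM.Frc M ∧
    (∀ b, Pool.Agent.N98.RM.IsBr M (aeval x (map (algebraMap C E) (P b)))) ∧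
    ∀ i, Pool.Agent.N98.RM.IsBr M (algebraMap E K (g i))

/-! ### Smooth models over fields (characteristic `p`) -/

/-- Each finite family of elements of `S` consists of boundary functions of some log smooth
model. -/
def LMS (k E : Type u) [Field k] [Field E] [Algebra k E] (S : Set E) : Prop :=
  ∀ (H : Type) [Finite H] (h : H → E), (∀ a, h a ∈ S) →
    ∃ (T I : Type) (_ : Finite T) (_ : Fintype I)
      (M : Pool.Agent.W558.LM (⊥ : Subalgebra k E) ⊤ T I),
      Pool.Agent.W558.Frc M ∧ ∀ a, Pool.Agent.N98.IsBr M (h a)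

/-- LTN: families of polynomials of bounded degree with coefficients in the subfield `C` of `E`
(compare `Pool.Agent.N98.tn`). -/
def S_ltn : Prop := ∀ (k C E : Type u) [Field k] [Field C] [Field E]
  [Algebra C E] [Algebra k E] (S : Set E), LMS k E S → (∀ c : C, c ≠ 0 → algebraMap C E c ∈ S) →
  ∀ (n D : ℕ), 1 ≤ D → (n ≠ 0 → ((Nat.factorial (D ^ 2 ^ (n - 1)) : ℕ) : k) ≠ 0) →
  ∀ (K : Type u) [Field K] [Algebra E K] [Algebra k K] [IsScalarTower k E K] (x : Fin n → K),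
  AlgebraicIndependent E x → IntermediateField.adjoin E (Set.range x) = ⊤ →
  ∀ (B Γ : Type) [Finite B] [Finite Γ] (P : B → MvPolynomial (Fin n) C) (g : Γ → E),
  (∀ b, P b ≠ 0) → (∀ b, (P b).totalDegree ≤ D) → (∀ i, g i ∈ S) →
  ∃ (T I : Type) (_ : Finite T) (_ : Fintype I)
    (M : Pool.Agent.W558.LM (⊥ : Subalgebra k K) ⊤ T I),
    Pool.Agent.W558.Frc M ∧
    (∀ b, Pool.Agent.N98.IsBr M (aeval x (map (algebraMap C E) (P b)))) ∧
    (∀ i, Pool.Agent.N98.IsBr M (algebraMap E K (g i))) ∧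
    ∀ t, (∀ e : E, ∃ a b : E, algebraMap E K a ∈ M.A t ∧ algebraMap E K b ∈ M.A t ∧ b ≠ 0 ∧
      e = a * b⁻¹) ∧ ∀ i, x i ∈ M.A t ∨ (x i)⁻¹ ∈ M.A t

/-- LHYP: hypersurfaces with equation over the subfield `C` of `E`
(compare `Pool.Agent.N98.hyp`). -/
def S_lhyp : Prop := ∀ (k C E K : Type u) [Field k] [Field C] [Field E]
  [Algebra C E] [Algebra k E] [Field K] [Algebra E K] [Algebra k K] [IsScalarTower k E K]
  (S : Set E), LMS k E S → (∀ c : C, c ≠ 0 → algebraMap C E c ∈ S) →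
  ∀ (n D : ℕ), 1 ≤ D → ((Nat.factorial (D ^ 2 ^ (n - 1)) : ℕ) : k) ≠ 0 →
  ∀ (x : Fin n → K), IntermediateField.adjoin E (Set.range x) = ⊤ →
  ∀ (f : MvPolynomial (Fin n) C), Irreducible (map (algebraMap C E) f) → f.totalDegree ≤ D →
  (∀ g : MvPolynomial (Fin n) E, aeval x g = 0 ↔ map (algebraMap C E) f ∣ g) →
  ∀ (B Γ : Type) [Finite B] [Finite Γ] (P : B → MvPolynomial (Fin n) C) (g : Γ → E),
  (∀ b, aeval x (map (algebraMap C E) (P b)) ≠ 0) → (∀ b, (P b).totalDegree ≤ D) →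
  (∀ i, g i ∈ S) → (∀ i, g i ≠ 0) →
  ∃ (T I : Type) (_ : Finite T) (_ : Fintype I)
    (M : Pool.Agent.W558.LM (⊥ : Subalgebra k K) ⊤ T I),
    Pool.Agent.W558.Frc M ∧
    (∀ b, Pool.Agent.N98.IsBr M (aeval x (map (algebraMap C E) (P b)))) ∧
    ∀ i, Pool.Agent.N98.IsBr M (algebraMap E K (g i))

/-! ### Linear disjointness -/

/-- KER: the equation of a hypersurface over `C` remains prime over a linearly disjoint
extension. -/
def S_ker : Prop := ∀ (C E K : Type u) [Field C] [Field E] [Field K] [Algebra C E] [Algebra C K]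
  [Algebra E K] [IsScalarTower C E K] (L : IntermediateField C K),
  (∀ (m : ℕ) (a : Fin m → L), LinearIndependent C a → LinearIndependent E fun i => (a i : K)) →
  ∀ (n : ℕ) (y : Fin n → L) (F : MvPolynomial (Fin n) C),
  (∀ g : MvPolynomial (Fin n) C, aeval y g = 0 ↔ F ∣ g) →
  ∀ g : MvPolynomial (Fin n) E, aeval (fun i => (y i : K)) g = 0 ↔ map (algebraMap C E) F ∣ g

/-- LDJ: linear disjointness of intermediate fields in terms of families. -/
def S_ldj : Prop := ∀ (C K : Type u) [Field C] [Field K] [Algebra C K]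
  (E L : IntermediateField C K), E.LinearDisjoint L →
  ∀ (m : ℕ) (a : Fin m → L), LinearIndependent C a → LinearIndependent E fun i => (a i : K)

end Pool.Agent.N808.PR
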