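import Pool.Agent.N98.RM.Tn
import Pool.Agent.N808.PR.Stm

/-!
Project PR (helper808): families of polynomials of bounded degree with coefficients in a subfield,
with an extra family of boundary functions; adapted from `Pool.Agent.N98.RM.tn` by helper300.
-/

set_option autoImplicit false
set_option linter.unusedVariables false
set_option linter.unusedSimpArgs false
set_option linter.unusedSectionVars false

universe u

open scoped IntermediateField.algebraAdjoinAdjoin

open Polynomial Pool.Agent.W558 Pool.Agent.N98

namespace Pool.Agent.N808.PR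

namespace RTN_

open Pool.Agent.N98.RM

/-- `finSuccEquiv` commutes with a change of coefficients -/
lemma fse_map {C E : Type*} [Field C] [Field E] (f : C →+* E) (n : ℕ)
    (P : MvPolynomial (Fin (n + 1)) C) :
    MvPolynomial.finSuccEquiv E n (MvPolynomial.map f P) =
      (MvPolynomial.finSuccEquiv C n P).map (MvPolynomial.map f) := by
  have hC : ∀ c : C, MvPolynomial.finSuccEquiv C n (MvPolynomial.C c) =
      Polynomial.C (MvPolynomial.C c) := fun c => by
    rw [← MvPolynomial.algebraMap_eq, AlgEquiv.commutes]
    rfl
  have hE : ∀ c : E, MvPolynomial.finSuccEquiv E n (MvPolynomial.C c) =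
      Polynomial.C (MvPolynomial.C c) := fun c => by
    rw [← MvPolynomial.algebraMap_eq, AlgEquiv.commutes]
    rfl
  induction P using MvPolynomial.induction_on with
  | C c => rw [MvPolynomial.map_C, hE, hC, Polynomial.map_C, MvPolynomial.map_C]
  | add p q hp hq => rw [map_add, map_add, map_add, Polynomial.map_add, hp, hq]
  | mul_X p i hp =>
    rw [map_mul, map_mul, map_mul, Polynomial.map_mul, hp, MvPolynomial.map_X]
    congr 1
    refine Fin.cases ?_ (fun i => ?_) i
    · rw [MvPolynomial.finSuccEquiv_X_zero, MvPolynomial.finSuccEquiv_X_zero, Polynomial.map_X]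
    · rw [MvPolynomial.finSuccEquiv_X_succ, MvPolynomial.finSuccEquiv_X_succ, Polynomial.map_C,
        MvPolynomial.map_X]

end RTN_

open RTN_ Pool.Agent.N98.RM in
/-- **Families of polynomials of bounded degree over a subfield.** -/
theorem t_RTN : S_rtn.{u} := by
  classical
  intro k C E _ _ _ _ _ _ S hS hS1 n
  induction n with
  | zero =>
    intro D hD _ K _ _ _ _ x hx htop B Γ _ _ P g hP hdeg hg
    have hPC : ∀ b, P b = MvPolynomial.C ((P b).coeff 0) := fun b =>
      MvPolynomial.eq_C_of_isEmpty _
    have h0 : ∀ b, (P b).coeff 0 ≠ 0 := by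
      intro b h
      apply hP b
      rw [hPC b, h, map_zero]
    obtain ⟨T, I, hT, hI, M, hfr, hF⟩ := hS (B ⊕ Γ)
      (Sum.elim (fun b => algebraMap C E ((P b).coeff 0)) g) (by
        rintro (b | i)
        · exact hS1 _ (h0 b)
        · exact hg i)
    have hsurj : ∀ y : K, ∃ e : E, algebraMap E K e = y := by
      intro y
      have hy : y ∈ IntermediateField.adjoin E (Set.range x) := by rw [htop]; trivial
      have : Set.range x = ∅ := Set.range_eq_empty x
      rw [this, IntermediateField.adjoin_empty, IntermediateField.mem_bot] at hy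
      exact hy
    refine ⟨T, I, hT, hI, mapLM M, ?_, ?_, ?_, fun t => ⟨?_, fun i => i.elim0⟩⟩
    · intro t y
      obtain ⟨e, rfl⟩ := hsurj y
      obtain ⟨a, ha, b, hb, hb0, rfl⟩ := hfr t e
      exact ⟨algebraMap E K a, ⟨a, ha, rfl⟩, algebraMap E K b, ⟨b, hb, rfl⟩,
        (_root_.map_ne_zero _).2 hb0, by rw [map_mul, map_inv₀]⟩
    · intro b
      rw [hPC b, MvPolynomial.map_C, MvPolynomial.aeval_C]
      exact isBr_map (hF (Sum.inl b))
    · intro i
      exact isBr_map (hF (Sum.inr i))
    · intro e
      obtain ⟨a, ha, b, hb, hb0, he⟩ := hfr t e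
      exact ⟨a, b, ⟨a, ha, rfl⟩, ⟨b, hb, rfl⟩, hb0, he⟩
  | succ n ih =>
    intro D hD hchar K _ _ _ _ x hx htop B Γ _ _ P g hP hdeg hg
    have hchar' := hchar (Nat.succ_ne_zero n)
    rw [Nat.add_sub_cancel] at hchar'
    let R0 := MvPolynomial (Fin n) C
    let L := LF (E := E) x
    have hs1 : IsScalarTower k E L := IsScalarTower.of_algebraMap_eq fun r =>
      Subtype.ext (IsScalarTower.algebraMap_apply k E K r)
    have hs2 : IsScalarTower k L K := IsScalarTower.of_algebraMap_eq fun r => rfl
    let φE : MvPolynomial (Fin n) E →ₐ[E] L := MvPolynomial.aeval (tl E x)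
    let φ : R0 →+* L := (φE : MvPolynomial (Fin n) E →+* L).comp
      (MvPolynomial.map (algebraMap C E))
    have hφ1 : Function.Injective φE := tl_ind hx
    have hφ2 : Function.Injective (MvPolynomial.map (algebraMap C E) : R0 → MvPolynomial (Fin n) E) :=
      MvPolynomial.map_injective _ (algebraMap C E).injective
    have hφa : ∀ q : R0, φ q = φE (MvPolynomial.map (algebraMap C E) q) := fun q => rfl
    have hφ' : Function.Injective φ := fun q q' h => hφ2 (hφ1 (by rw [← hφa, ← hφa, h]))
    have hle : D ≤ D ^ 2 ^ n := Nat.le_self_pow (by positivity) D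
    have hle2 : D ≤ D ^ 2 := Nat.le_self_pow (by norm_num) D
    have hDf : IsUnit ((Nat.factorial D : ℕ) : k) := by
      obtain ⟨m, hm⟩ := Nat.factorial_dvd_factorial hle
      rw [hm, Nat.cast_mul] at hchar'
      exact isUnit_of_mul_isUnit_left hchar'
    have hDC : ((Nat.factorial D : ℕ) : C) ≠ 0 := by
      intro h
      have h1 := hDf.map (algebraMap k E)
      rw [map_natCast, ← map_natCast (algebraMap C E), h, map_zero] at h1
      exact not_isUnit_zero h1
    -- the family, closed under derivatives
    let G0 : B → R0[X] := fun b => MvPolynomial.finSuccEquiv C n (P b)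
    have hG0 : ∀ b, G0 b ≠ 0 := by
      intro b h
      apply hP b
      exact (MvPolynomial.finSuccEquiv C n).injective (h.trans (map_zero _).symm)
    have hG0T : ∀ b, TD D (G0 b) := by
      intro b i hi
      exact (MvPolynomial.totalDegree_coeff_finSuccEquiv_add_le (P b) i hi).trans (hdeg b)
    let BB : Type := Bool ⊕ (B × Fin (D + 1))
    let G : BB → R0[X] := Sum.elim (fun e => if e then X else 1)
      (fun q => derivative^[min q.2.val (G0 q.1).natDegree] (G0 q.1))
    have hGX : G (Sum.inl true) = X := rfl
    have hG1 : G (Sum.inl false) = 1 := rfl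
    have hGb : ∀ b (j : Fin (D + 1)), G (Sum.inr (b, j)) =
      derivative^[min j.val (G0 b).natDegree] (G0 b) := fun _ _ => rfl
    have hGne : ∀ β, G β ≠ 0 := by
      rintro ((_ | _) | ⟨b, j⟩)
      · rw [hG1]; exact one_ne_zero
      · rw [hGX]; exact X_ne_zero
      · rw [hGb]
        exact iter_ne_zero (k := C) hDC (hG0 b) (hG0T b).natDegree _ (min_le_right _ _)
    have hGT : ∀ β, TD D (G β) := by
      rintro ((_ | _) | ⟨b, j⟩)
      · rw [hG1]
        intro i hi
        rw [coeff_one] at hi ⊢
        split_ifs at hi ⊢ with h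
        · rw [MvPolynomial.totalDegree_one]
          omega
        · exact absurd rfl hi
      · rw [hGX]
        intro i hi
        rw [coeff_X] at hi ⊢
        split_ifs at hi ⊢ with h
        · rw [MvPolynomial.totalDegree_one]
          omega
        · exact absurd rfl hi
      · rw [hGb]
        exact (hG0T b).iter _
    let F : BB → L[X] := fun β => (G β).map φ
    have hFn : ∀ β, (F β).natDegree = (G β).natDegree := fun β =>
      natDegree_map_eq_of_injective hφ' _
    -- the family over the base
    let CC : Type := BB ⊕ (BB × BB × Fin (D + 1))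
    let H0 : CC → R0 := Sum.elim (fun β => (G β).coeff 0)
      (fun q => (chi (G q.1) (G q.2.1)).coeff q.2.2)
    let H : CC → R0 := fun c => if H0 c ≠ 0 then H0 c else 1
    have hH1 : ∀ c, H0 c ≠ 0 → H c = H0 c := fun c hc => if_pos hc
    have hHne : ∀ c, H c ≠ 0 := by
      intro c
      by_cases h : H0 c ≠ 0
      · rw [hH1 c h]; exact h
      · have : H c = 1 := if_neg h
        rw [this]; exact one_ne_zero
    have hHT : ∀ c, (H c).totalDegree ≤ D ^ 2 := by
      intro c
      by_cases h : H0 c ≠ 0
      · rw [hH1 c h]
        rcases c with β | ⟨β, β', j⟩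
        · have h1 := hGT β 0 h
          change ((G β).coeff 0).totalDegree ≤ D ^ 2
          omega
        · exact totalDegree_chi (hGT β) (hGT β') _ h
      · have : H c = 1 := if_neg h
        rw [this, MvPolynomial.totalDegree_one]
        exact Nat.zero_le _
    obtain ⟨T, I, hT, hI, M, hFr, hMb, hMg, hMd⟩ := ih (D ^ 2) (Nat.one_le_pow _ _ hD) (by
      intro hn
      obtain ⟨m, rfl⟩ := Nat.exists_eq_succ_of_ne_zero hn
      rw [Nat.succ_eq_add_one, Nat.add_sub_cancel, ← pow_mul, ← pow_succ']
      exact hchar') L (tl E x) (tl_ind hx) (tl_top x) CC Γ H g hHne hHT hg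
    obtain ⟨T', I', hT', hI', M', hFr', hMb', hMg', hMd'⟩ := p1 M hFr (x 0) (hd_tr hx)
      (hd_top htop) D hDf ((Set.range fun c => φ (H c)) ∪ Set.range fun i => algebraMap E L (g i))
      (by
        rintro _ (⟨c, rfl⟩ | ⟨i, rfl⟩)
        · exact hMb c
        · exact hMg i) F (fun β => (Polynomial.map_ne_zero_iff hφ').2 (hGne β))
      (fun β => by rw [hFn]; exact (hGT β).natDegree)
      (by
        rintro ((_ | _) | ⟨b, j⟩) h1
        · exfalso
          rw [hFn, hG1, natDegree_one] at h1
          omega
        · refine ⟨Sum.inl false, ?_⟩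
          change (G (Sum.inl false)).map φ = derivative ((G (Sum.inl true)).map φ)
          rw [hG1, hGX, Polynomial.map_one, Polynomial.map_X, derivative_X]
        · rw [hFn, hGb] at h1
          have h2 := natDegree_iterate_derivative (G0 b) (min j.val (G0 b).natDegree)
          have h3 : j.val < (G0 b).natDegree := by omega
          have h4 := (hG0T b).natDegree
          refine ⟨Sum.inr (b, ⟨j.val + 1, by omega⟩), ?_⟩
          change (G (Sum.inr (b, ⟨j.val + 1, by omega⟩))).map φ =
            derivative ((G (Sum.inr (b, j))).map φ)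
          rw [hGb, hGb, derivative_map]
          simp only
          rw [min_eq_left h3.le, min_eq_left (show j.val + 1 ≤ (G0 b).natDegree by omega),
            Function.iterate_succ_apply'])
      ⟨Sum.inl true, by
        change (G (Sum.inl true)).map φ = X
        rw [hGX, Polynomial.map_X]⟩
      (by
        intro β hβ
        rw [hFn] at hβ
        have h1 : (G β).coeff 0 ≠ 0 := by
          intro h2
          apply hGne β
          rw [eq_C_of_natDegree_eq_zero hβ, h2, map_zero]
        refine Or.inl ⟨Sum.inl β, ?_⟩
        change φ (H (Sum.inl β)) = ((G β).map φ).coeff 0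
        rw [coeff_map, hH1 (Sum.inl β) h1]
        rfl)
      (by
        intro β β' hβ
        rw [hFn] at hβ
        refine ⟨(chi (G β) (G β')).map φ,
          (Polynomial.map_ne_zero_iff hφ').2 (chi_ne_zero _ _ (hGne β)), ?_, ?_, ?_⟩
        · exact natDegree_map_le.trans ((natDegree_chi _ _).trans (hGT β).natDegree)
        · change (G β).map φ ∣ ((chi (G β) (G β')).map φ).comp ((G β').map φ)
          rw [← Polynomial.map_comp]
          exact Polynomial.map_dvd _ (dvd_chi _ _ (by omega))
        · intro j hj
          rw [coeff_map] at hj ⊢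
          have h1 : (chi (G β) (G β')).coeff j ≠ 0 := fun h => hj (by rw [h, map_zero])
          have h2 : j ≤ D := by
            have h3 := le_natDegree_of_ne_zero h1
            have h4 := natDegree_chi (G β) (G β')
            have h5 := (hGT β).natDegree
            omega
          refine Or.inl ⟨Sum.inr (β, β', ⟨j, by omega⟩), ?_⟩
          change φ (H (Sum.inr (β, β', ⟨j, _⟩))) = φ ((chi (G β) (G β')).coeff j)
          rw [hH1 (Sum.inr (β, β', ⟨j, by omega⟩)) h1]
          rfl)
    refine ⟨T', I', hT', hI', M', hFr', ?_, ?_, ?_⟩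
    · intro b
      have h1 := hMb' (Sum.inr (b, ⟨0, by omega⟩))
      have h2 : F (Sum.inr (b, ⟨0, by omega⟩)) = (G0 b).map φ := by
        change (G (Sum.inr (b, ⟨0, by omega⟩))).map φ = _
        rw [hGb]
        simp only
        rw [Nat.zero_min, Function.iterate_zero_apply]
      rw [h2] at h1
      have h3 : (G0 b).map φ = (MvPolynomial.finSuccEquiv E n
          (MvPolynomial.map (algebraMap C E) (P b))).map (φE : MvPolynomial (Fin n) E →+* L) := by
        rw [fse_map, Polynomial.map_map]
      rw [h3] at h1
      rw [← aeval_fse x (MvPolynomial.map (algebraMap C E) (P b))]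
      exact h1
    · intro i
      exact hMg' _ (Or.inr ⟨i, rfl⟩)
    · intro t'
      obtain ⟨hz, t, ht⟩ := hMd' t'
      obtain ⟨hd1, hd2⟩ := hMd t
      have hm : ∀ a : L, a ∈ M.A t → algebraMap L K a ∈ M'.A t' := fun a ha => ht ⟨a, ha, rfl⟩
      refine ⟨?_, ?_⟩
      · intro e
        obtain ⟨a, b, ha, hb, hb0, he⟩ := hd1 e
        refine ⟨a, b, ?_, ?_, hb0, he⟩
        · exact hm _ ha
        · exact hm _ hb
      · intro i
        refine Fin.cases hz (fun i => ?_) i
        rcases hd2 i with h | h
        · exact Or.inl (hm _ h)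
        · right
          have h1 := hm _ h
          rw [map_inv₀] at h1
          exact h1

end Pool.Agent.N808.PR
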