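import Pool.Agent.N808.PR.Stm
import Pool.Agent.N808.RC.Poly

/-!
Fibre products of varieties of bounded degree: one more factor.

helper808; built on the library of helper98.
-/

set_option autoImplicit false
set_option linter.unusedVariables false
set_option linter.unusedSectionVars false

universe u

open MvPolynomial Pool.Agent.N98 Pool.Agent.N808.RC

namespace Pool.Agent.N808.PR

section poly

variable {C E K L : Type u} [Field C] [Field E] [Field K] [Field L] [Algebra C E] [Algebra C K]
  [Algebra E K] [IsScalarTower C E K] [Algebra C L] (φ : L →ₐ[C] K)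

/-- The equation of the generic fibre of the projection. -/
theorem step_poly [Infinite C] (hker0 : S_ker.{u})
    (hld : ∀ (m : ℕ) (a : Fin m → L), LinearIndependent C a → LinearIndependent E fun i => φ (a i))
    {N : ℕ} (x : Fin N → L) (htop : IntermediateField.adjoin C (Set.range x) = ⊤)
    (htopE : IntermediateField.adjoin E (Set.range fun i => φ (x i)) = ⊤)
    (r : ℕ) (htr : Algebra.trdeg C L = r) (δ C0 : ℕ)
    (hδ : ∀ t : ℕ, r.factorial * Module.finrank C (img C x t) ≤ δ * (t + C0) ^ r)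
    (hchar : ((Nat.factorial δ : ℕ) : C) ≠ 0) (d : ℕ) (B : Type) (P : B → MvPolynomial (Fin N) C)
    (hPd : ∀ b, (P b).totalDegree ≤ d) :
    ∃ (y : Fin (r + 1) → K) (F W : MvPolynomial (Fin (r + 1)) C)
      (H : B → MvPolynomial (Fin (r + 1)) C),
      IntermediateField.adjoin E (Set.range y) = ⊤ ∧ Irreducible (map (algebraMap C E) F) ∧
      F.totalDegree ≤ δ ∧
      (∀ g : MvPolynomial (Fin (r + 1)) E, aeval y g = 0 ↔ map (algebraMap C E) F ∣ g) ∧
      W.totalDegree ≤ δ ∧
      aeval y (map (algebraMap C E) W) ≠ 0 ∧ (∀ b, (H b).totalDegree ≤ d * δ) ∧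
      ∀ b, aeval y (map (algebraMap C E) (H b)) =
        φ (aeval x (P b)) * aeval y (map (algebraMap C E) W) ^ d := by
  classical
  obtain ⟨v, hv, hvx⟩ := exists_basis x htop r htr (Fintype.card_fin r)
  obtain ⟨y, F, W, H, hytop, hF, hFd, hker, hWd, hW, hHd, hH⟩ := spz_poly (k0 := C) (E := C) x v v
    (fun i => X i) htop hv
    (fun i => by
      obtain ⟨j, hj⟩ := hvx i
      rw [hj]
      exact x_mem_img x j) hv (fun i => aeval_X _ _) (fun i => (totalDegree_X (R := C) i).le) δ C0
    (by rw [Fintype.card_fin]; exact hδ) hchar d B P hPd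
  have hev : ∀ g : MvPolynomial (Fin (r + 1)) C,
      aeval (fun i => φ (y i)) (map (algebraMap C E) g) = φ (aeval y g) := by
    intro g
    rw [aeval_map_algebraMap, comp_aeval_apply]
  let y' : Fin (r + 1) → φ.fieldRange := fun i => ⟨φ (y i), ⟨y i, rfl⟩⟩
  have hker' : ∀ g : MvPolynomial (Fin (r + 1)) E,
      aeval (fun i => φ (y i)) g = 0 ↔ map (algebraMap C E) F ∣ g := by
    refine hker0 C E K φ.fieldRange ?_ (r + 1) y' F ?_
    · intro m a ha
      choose b hb using fun i => (a i).2
      have hb' : ∀ i, φ (b i) = (a i : K) := hb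
      have h1 : LinearIndependent C b := by
        have h2 : LinearIndependent C fun i => (a i : K) :=
          ha.map' (φ.fieldRange.val.toLinearMap) (LinearMap.ker_eq_bot.2
            (Subtype.val_injective))
        have h3 : (fun i => (a i : K)) = φ.toLinearMap ∘ b := by
          funext i
          exact (hb' i).symm
        rw [h3] at h2
        exact h2.of_comp φ.toLinearMap
      have h4 := hld m b h1
      simpa only [hb'] using h4
    · intro g
      rw [← hker g]
      have h1 : ((aeval y' g : φ.fieldRange) : K) = φ (aeval y g) := by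
        have h2 : ((aeval y' g : φ.fieldRange) : K) = φ.fieldRange.val (aeval y' g) := rfl
        rw [h2, comp_aeval_apply, comp_aeval_apply]
        rfl
      constructor
      · intro h
        have h2 : φ (aeval y g) = 0 := by rw [← h1, h]; rfl
        exact (map_eq_zero φ).1 h2
      · intro h
        apply Subtype.val_injective
        rw [h1, h, map_zero]
        rfl
  have hinj : Function.Injective (map (σ := Fin (r + 1)) (algebraMap C E)) :=
    map_injective _ (algebraMap C E).injective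
  have hprime : Prime (map (algebraMap C E) F) := by
    refine ⟨?_, ?_, ?_⟩
    · intro h
      exact hF.ne_zero (hinj (h.trans (map_zero _).symm))
    · intro h
      have h1 : aeval (fun i => φ (y i)) (1 : MvPolynomial (Fin (r + 1)) E) = 0 :=
        (hker' 1).2 (h.dvd)
      rw [map_one] at h1
      exact one_ne_zero h1
    · intro a b h
      have h1 := (hker' _).2 h
      rw [map_mul] at h1
      exact (mul_eq_zero.1 h1).imp (hker' a).1 (hker' b).1
  refine ⟨fun i => φ (y i), F, W, H, ?_, hprime.irreducible, hFd, hker', hWd, ?_, hHd, ?_⟩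
  · rw [eq_top_iff, ← htopE, IntermediateField.adjoin_le_iff]
    rintro _ ⟨j, rfl⟩
    have h1 : x j ∈ IntermediateField.adjoin C (Set.range y) := by rw [hytop]; trivial
    have h2 : IntermediateField.adjoin C (Set.range y) ≤
        ((IntermediateField.adjoin E (Set.range fun i => φ (y i))).restrictScalars C).comap φ := by
      rw [IntermediateField.adjoin_le_iff]
      rintro _ ⟨i, rfl⟩
      exact IntermediateField.subset_adjoin E _ ⟨i, rfl⟩
    exact h2 h1
  · rw [hev]
    exact (_root_.map_ne_zero φ).2 hW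
  · intro b
    rw [hev, hev, hH b, map_mul, map_pow]

end poly

section step

variable {k C E K L : Type u} [Field C] [Field E] [Field K] [Field L] [Algebra C E]
  [Algebra C K] [Algebra E K] [IsScalarTower C E K] [Algebra C L] (φ : L →ₐ[C] K)

/-- The functions `algebraMap E K s`, `s ∈ S`, and the polynomials of degree at most `d`. -/
def ext (S : Set E) {N : ℕ} (x : Fin N → L) (d : ℕ) : Set K :=
  {z | (∃ s ∈ S, z = algebraMap E K s) ∨ ∃ P : MvPolynomial (Fin N) C, P.totalDegree ≤ d ∧
    z = φ (aeval x P) ∧ z ≠ 0}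

lemma ext_family (S : Set E) (hCS : ∀ c : C, c ≠ 0 → algebraMap C E c ∈ S) {N : ℕ}
    (x : Fin N → L) (d : ℕ) {z : K} (hz : z ∈ ext φ S x d) :
    ∃ (g : E) (P : MvPolynomial (Fin N) C), g ∈ S ∧ P.totalDegree ≤ d ∧ φ (aeval x P) ≠ 0 ∧
      z = algebraMap E K g * φ (aeval x P) := by
  rcases hz with ⟨s, hs, rfl⟩ | ⟨P, hP, rfl, h0⟩
  · refine ⟨s, 1, hs, ?_, ?_, ?_⟩
    · rw [totalDegree_one]
      exact Nat.zero_le _
    · rw [map_one, map_one]
      exact one_ne_zero
    · rw [map_one, map_one, mul_one]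
  · refine ⟨1, P, ?_, hP, h0, ?_⟩
    · have := hCS 1 one_ne_zero
      rwa [map_one] at this
    · rw [map_one, one_mul]

lemma factorial_ne_zero_of {δ d r : ℕ} (hd : 1 ≤ d)
    (h : ((Nat.factorial ((d * δ) ^ 2 ^ r) : ℕ) : E) ≠ 0) :
    ((Nat.factorial δ : ℕ) : C) ≠ 0 := by
  have hδD : δ ≤ d * δ := Nat.le_mul_of_pos_left δ hd
  have h2 : Nat.factorial δ ∣ Nat.factorial ((d * δ) ^ 2 ^ r) :=
    Nat.factorial_dvd_factorial (hδD.trans (Nat.le_self_pow (by positivity) _))
  intro h0
  apply h
  obtain ⟨c, hc⟩ := h2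
  have h3 := congrArg (algebraMap C E) h0
  rw [map_natCast, map_zero] at h3
  rw [hc, Nat.cast_mul, h3, zero_mul]

/-- **One more factor**, models over noetherian rings. -/
theorem step_rms [CommRing k] [IsNoetherianRing k] [Algebra k E] [Algebra k K]
    [IsScalarTower k E K] [Infinite C] (hker0 : S_ker.{u}) (hhyp : S_rhyp.{u}) (S : Set E)
    (hS : RMS k E S) (hCS : ∀ c : C, c ≠ 0 → algebraMap C E c ∈ S) (hS0 : ∀ z ∈ S, z ≠ 0)
    (hld : ∀ (m : ℕ) (a : Fin m → L), LinearIndependent C a → LinearIndependent E fun i => φ (a i))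
    {N : ℕ} (x : Fin N → L) (htop : IntermediateField.adjoin C (Set.range x) = ⊤)
    (htopE : IntermediateField.adjoin E (Set.range fun i => φ (x i)) = ⊤)
    (r : ℕ) (htr : Algebra.trdeg C L = r) (δ C0 d : ℕ) (hd : 1 ≤ d)
    (hδ : ∀ t : ℕ, r.factorial * Module.finrank C (img C x t) ≤ δ * (t + C0) ^ r)
    (hchar : IsUnit ((Nat.factorial ((d * δ) ^ 2 ^ r) : ℕ) : k)) :
    RMS k K (ext φ S x d) := by
  classical
  intro A _ h hh
  choose g P hg hP hP0 hgP using fun a => ext_family φ S hCS x d (hh a)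
  have hδ1 : 1 ≤ δ := one_le_of_growth x r δ C0 hδ
  have hD1 : 1 ≤ d * δ := Nat.mul_pos hd hδ1
  have hδD : δ ≤ d * δ := Nat.le_mul_of_pos_left δ hd
  have hcharC : ((Nat.factorial δ : ℕ) : C) ≠ 0 := by
    refine factorial_ne_zero_of (E := E) (r := r) hd ?_
    rw [← map_natCast (algebraMap k E)]
    exact (hchar.map (algebraMap k E)).ne_zero
  obtain ⟨y, F, W, H, hytop, hF, hFd, hker, hWd, hW, hHd, hH⟩ := step_poly φ hker0 hld x htop htopE
    r htr δ C0 hδ hcharC d A P hP
  obtain ⟨T, I, hT, hI, M, hFr, hM, hMg⟩ := hhyp k C E K S hS hCS (r + 1) (d * δ) hD1 hchar y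
    hytop F hF (hFd.trans hδD) hker (Option A) A (fun o => o.elim W H) g
    (by
      rintro (_ | b)
      · exact hW
      · change aeval y (map (algebraMap C E) (H b)) ≠ 0
        rw [hH b]
        exact mul_ne_zero (hP0 b) (pow_ne_zero _ hW))
    (by
      rintro (_ | b)
      · exact hWd.trans hδD
      · exact hHd b) hg (fun i => hS0 _ (hg i))
  refine ⟨T, I, hT, hI, M, hFr, fun a => ?_⟩
  have h1 : h a = algebraMap E K (g a) * (aeval y (map (algebraMap C E) (H a)) *
      (aeval y (map (algebraMap C E) W) ^ d)⁻¹) := by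
    rw [hgP a, hH a, mul_assoc (φ (aeval x (P a))), mul_inv_cancel₀ (pow_ne_zero _ hW), mul_one]
  rw [h1]
  exact (hMg a).mul ((hM (some a)).mul ((hM none).pow d).inv)

/-- **One more factor**, models over fields. -/
theorem step_lms [Field k] [Algebra k E] [Algebra k K]
    [IsScalarTower k E K] [Infinite C] (hker0 : S_ker.{u}) (hhyp : S_lhyp.{u}) (S : Set E)
    (hS : LMS k E S) (hCS : ∀ c : C, c ≠ 0 → algebraMap C E c ∈ S) (hS0 : ∀ z ∈ S, z ≠ 0)
    (hld : ∀ (m : ℕ) (a : Fin m → L), LinearIndependent C a → LinearIndependent E fun i => φ (a i))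
    {N : ℕ} (x : Fin N → L) (htop : IntermediateField.adjoin C (Set.range x) = ⊤)
    (htopE : IntermediateField.adjoin E (Set.range fun i => φ (x i)) = ⊤)
    (r : ℕ) (htr : Algebra.trdeg C L = r) (δ C0 d : ℕ) (hd : 1 ≤ d)
    (hδ : ∀ t : ℕ, r.factorial * Module.finrank C (img C x t) ≤ δ * (t + C0) ^ r)
    (hchar : ((Nat.factorial ((d * δ) ^ 2 ^ r) : ℕ) : k) ≠ 0) :
    LMS k K (ext φ S x d) := by
  classical
  intro A _ h hh
  choose g P hg hP hP0 hgP using fun a => ext_family φ S hCS x d (hh a)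
  have hδ1 : 1 ≤ δ := one_le_of_growth x r δ C0 hδ
  have hD1 : 1 ≤ d * δ := Nat.mul_pos hd hδ1
  have hδD : δ ≤ d * δ := Nat.le_mul_of_pos_left δ hd
  have hcharC : ((Nat.factorial δ : ℕ) : C) ≠ 0 := by
    refine factorial_ne_zero_of (E := E) (r := r) hd ?_
    rw [← map_natCast (algebraMap k E)]
    exact (_root_.map_ne_zero _).2 hchar
  obtain ⟨y, F, W, H, hytop, hF, hFd, hker, hWd, hW, hHd, hH⟩ := step_poly φ hker0 hld x htop htopE
    r htr δ C0 hδ hcharC d A P hP
  obtain ⟨T, I, hT, hI, M, hFr, hM, hMg⟩ := hhyp k C E K S hS hCS (r + 1) (d * δ) hD1 hchar y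
    hytop F hF (hFd.trans hδD) hker (Option A) A (fun o => o.elim W H) g
    (by
      rintro (_ | b)
      · exact hW
      · change aeval y (map (algebraMap C E) (H b)) ≠ 0
        rw [hH b]
        exact mul_ne_zero (hP0 b) (pow_ne_zero _ hW))
    (by
      rintro (_ | b)
      · exact hWd.trans hδD
      · exact hHd b) hg (fun i => hS0 _ (hg i))
  refine ⟨T, I, hT, hI, M, hFr, fun a => ?_⟩
  have h1 : h a = algebraMap E K (g a) * (aeval y (map (algebraMap C E) (H a)) *
      (aeval y (map (algebraMap C E) W) ^ d)⁻¹) := by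
    rw [hgP a, hH a, mul_assoc (φ (aeval x (P a))), mul_inv_cancel₀ (pow_ne_zero _ hW), mul_one]
  rw [h1]
  exact (hMg a).mul ((hM (some a)).mul ((hM none).pow d).inv)

end step

end Pool.Agent.N808.PR
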