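import Pool.Agent.N808.PR.Stm

/-!
Admissible towers in mixed characteristic: statements of the parts (compare the operations of
helper762 in characteristic `p`, `Pool.Agent.N762.FP`).
-/

set_option autoImplicit false
set_option linter.unusedVariables false

universe u

open MvPolynomial

namespace Pool.Agent.N808.PR

/-- RHC: restriction to a component of a hypersurface with equation over the subfield `C` of `E`
(compare `S_rhyp`, `Pool.Agent.N98.RM.hyp`, `Pool.Agent.N808.RC.exists_locP`). -/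
def S_rhc : Prop := ∀ (k C E K : Type u) [CommRing k] [IsNoetherianRing k] [Field C] [Field E]
  [Algebra C E] [Algebra k E] [Field K] [Algebra E K] [Algebra k K] [IsScalarTower k E K]
  (S : Set E), RMS k E S → (∀ c : C, c ≠ 0 → algebraMap C E c ∈ S) →
  ∀ (n D : ℕ), 1 ≤ D → IsUnit ((Nat.factorial (D ^ 2 ^ (n - 1)) : ℕ) : k) →
  ∀ (x : Fin n → K), IntermediateField.adjoin E (Set.range x) = ⊤ →
  ∀ (f : MvPolynomial (Fin n) C), f.totalDegree ≤ D → ∀ (F c : MvPolynomial (Fin n) E),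
  Irreducible F → map (algebraMap C E) f = F * c → aeval x c ≠ 0 →
  (∀ g : MvPolynomial (Fin n) E, aeval x g = 0 ↔ F ∣ g) →
  ∀ (B Γ : Type) [Finite B] [Finite Γ] (P : B → MvPolynomial (Fin n) C) (g : Γ → E),
  (∀ b, aeval x (map (algebraMap C E) (P b)) ≠ 0) → (∀ b, (P b).totalDegree ≤ D) →
  (∀ i, g i ∈ S) → (∀ i, g i ≠ 0) →
  ∃ (T I : Type) (_ : Finite T) (_ : Fintype I)
    (M : Pool.Agent.N98.RM.LM (⊥ : Subalgebra k K) ⊤ T I),
    Pool.Agent.N98.RM.Frc M ∧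
    (∀ b, Pool.Agent.N98.RM.IsBr M (aeval x (map (algebraMap C E) (P b)))) ∧
    ∀ i, Pool.Agent.N98.RM.IsBr M (algebraMap E K (g i))

/-- KFL: the relations of `r + 1` elements of transcendence degree `r` are the multiples of one
relation (compare `Pool.Agent.N98.exists_gen_fin`). -/
def S_kfl : Prop := ∀ (E K : Type u) [Field E] [Field K] [Algebra E K] (r : ℕ)
  (y : Fin (r + 1) → K), IntermediateField.adjoin E (Set.range y) = ⊤ → Algebra.trdeg E K = r →
  ∃ F : MvPolynomial (Fin (r + 1)) E, Irreducible F ∧ ∀ g, aeval y g = 0 ↔ F ∣ g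

/-- SQF: in characteristic zero an irreducible polynomial has no multiple factors over an
extension field. -/
def S_sqf : Prop := ∀ (C E K : Type u) [Field C] [CharZero C] [Field E] [Field K] [Algebra C E]
  [Algebra C K] [Algebra E K] [IsScalarTower C E K] (n : ℕ) (y : Fin n → K)
  (F : MvPolynomial (Fin n) C), Irreducible F →
  (∀ g : MvPolynomial (Fin n) C, aeval y g = 0 ↔ F ∣ g) →
  ∀ G : MvPolynomial (Fin n) E, (∀ g : MvPolynomial (Fin n) E, aeval y g = 0 ↔ G ∣ g) →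
  ∃ c : MvPolynomial (Fin n) E, map (algebraMap C E) F = G * c ∧ aeval y c ≠ 0

/-- ROOT: adjoining one element (compare `Pool.Agent.N762.FP.mod_root`). -/
def S_root : Prop := ∀ (k L K : Type u) [CommRing k] [IsNoetherianRing k] [Field L] [Field K]
  [Algebra k L] [Algebra k K] [Algebra L K] [IsScalarTower k L K] (P : Set L),
  RMS k L {z | z ∈ P ∧ z ≠ 0} → ∀ (Δ : ℕ), IsUnit ((Nat.factorial Δ : ℕ) : k) →
  ∀ (Φ : Set (Polynomial L)), (∀ f ∈ Φ, f ≠ 0) → (∀ f ∈ Φ, f.natDegree ≤ Δ) →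
  Polynomial.X ∈ Φ → (∀ f ∈ Φ, 1 ≤ f.natDegree → Polynomial.derivative f ∈ Φ) →
  (∀ f ∈ Φ, f.natDegree = 0 → f.coeff 0 ∈ P) →
  (∀ f ∈ Φ, ∀ g ∈ Φ, 1 ≤ f.natDegree → ∃ Q : Polynomial L, Q ≠ 0 ∧ Q.natDegree ≤ Δ ∧
    f ∣ Q.comp g ∧ ∀ n, Q.coeff n ≠ 0 → Q.coeff n ∈ P) →
  ∀ (z : K), IntermediateField.adjoin L {z} = ⊤ →
  (Transcendental L z ∨ ∃ f ∈ Φ, Polynomial.aeval z f = 0) →
  RMS k K {y | (y ∈ algebraMap L K '' P ∨ ∃ f ∈ Φ, y = Polynomial.aeval z f) ∧ y ≠ 0}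

/-- RAD: radical extensions (compare `Pool.Agent.N808.RC.radical_tower`). -/
def S_rad : Prop := ∀ (k L K : Type u) [CommRing k] [IsNoetherianRing k] [Field L] [Field K]
  [Algebra k L] [Algebra k K] [Algebra L K] [IsScalarTower k L K] (P : Set L),
  RMS k L {z | z ∈ P ∧ z ≠ 0} → ∀ (s : ℕ) (w : Fin s → K), (∀ j, w j ≠ 0) →
  ∀ (n : Fin s → ℕ), (∀ j, IsUnit ((n j : ℕ) : k)) →
  (∀ j, ∃ z ∈ P, w j ^ n j = algebraMap L K z) →
  IntermediateField.adjoin L (Set.range w) = ⊤ →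
  RMS k K {y | (y ∈ algebraMap L K '' P ∨ y ∈ Set.range w) ∧ y ≠ 0}

end Pool.Agent.N808.PR
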