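import Pool.Agent.N808.PR.Step
import Pool.Agent.N808.PR.Stm2

/-!
Families of varieties of bounded degree over a subfield: components of the base change.

helper808; built on the library of helper98.
-/

set_option autoImplicit false
set_option linter.unusedVariables false
set_option linter.unusedSectionVars false

universe u

open MvPolynomial Pool.Agent.N98 Pool.Agent.N808.RC

namespace Pool.Agent.N808.PR

section poly

variable {C E K L : Type u} [Field C] [Field E] [Field K] [Field L] [Algebra C E] [Algebra C K]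
  [Algebra E K] [IsScalarTower C E K] [Algebra C L] (φ : L →ₐ[C] K)

/-- The equation of the generic fibre of the projection. -/
theorem step2_poly [CharZero C] (hkfl : S_kfl.{u}) (hsqf : S_sqf.{u})
    {N : ℕ} (x : Fin N → L) (htop : IntermediateField.adjoin C (Set.range x) = ⊤)
    (htopE : IntermediateField.adjoin E (Set.range fun i => φ (x i)) = ⊤)
    (r : ℕ) (htr : Algebra.trdeg C L = r) (htrE : Algebra.trdeg E K = r) (δ C0 : ℕ)
    (hδ : ∀ t : ℕ, r.factorial * Module.finrank C (img C x t) ≤ δ * (t + C0) ^ r)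
    (d : ℕ) (B : Type) (P : B → MvPolynomial (Fin N) C)
    (hPd : ∀ b, (P b).totalDegree ≤ d) :
    ∃ (y : Fin (r + 1) → K) (F W : MvPolynomial (Fin (r + 1)) C)
      (H : B → MvPolynomial (Fin (r + 1)) C) (G c : MvPolynomial (Fin (r + 1)) E),
      IntermediateField.adjoin E (Set.range y) = ⊤ ∧ F.totalDegree ≤ δ ∧ Irreducible G ∧
      map (algebraMap C E) F = G * c ∧ aeval y c ≠ 0 ∧
      (∀ g : MvPolynomial (Fin (r + 1)) E, aeval y g = 0 ↔ G ∣ g) ∧
      W.totalDegree ≤ δ ∧
      aeval y (map (algebraMap C E) W) ≠ 0 ∧ (∀ b, (H b).totalDegree ≤ d * δ) ∧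
      ∀ b, aeval y (map (algebraMap C E) (H b)) =
        φ (aeval x (P b)) * aeval y (map (algebraMap C E) W) ^ d := by
  classical
  obtain ⟨v, hv, hvx⟩ := exists_basis x htop r htr (Fintype.card_fin r)
  obtain ⟨y, F, W, H, hytop, hF, hFd, hker, hWd, hW, hHd, hH⟩ := spz_poly (k0 := C) (E := C) x v v
    (fun i => X i) htop hv
    (fun i => by
      obtain ⟨j, hj⟩ := hvx i
      rw [hj]
      exact x_mem_img x j) hv (fun i => aeval_X _ _) (fun i => (totalDegree_X (R := C) i).le) δ C0
    (by rw [Fintype.card_fin]; exact hδ) (Nat.cast_ne_zero.2 (Nat.factorial_ne_zero _)) d B P hPd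
  have hev : ∀ g : MvPolynomial (Fin (r + 1)) C,
      aeval (fun i => φ (y i)) (map (algebraMap C E) g) = φ (aeval y g) := by
    intro g
    rw [aeval_map_algebraMap, comp_aeval_apply]
  have htopy : IntermediateField.adjoin E (Set.range fun i => φ (y i)) = ⊤ := by
    rw [eq_top_iff, ← htopE, IntermediateField.adjoin_le_iff]
    rintro _ ⟨j, rfl⟩
    have h1 : x j ∈ IntermediateField.adjoin C (Set.range y) := by rw [hytop]; trivial
    have h2 : IntermediateField.adjoin C (Set.range y) ≤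
        ((IntermediateField.adjoin E (Set.range fun i => φ (y i))).restrictScalars C).comap φ := by
      rw [IntermediateField.adjoin_le_iff]
      rintro _ ⟨i, rfl⟩
      exact IntermediateField.subset_adjoin E _ ⟨i, rfl⟩
    exact h2 h1
  obtain ⟨G, hG, hkerG⟩ := hkfl E K r (fun i => φ (y i)) htopy htrE
  obtain ⟨c, hc, hc0⟩ := hsqf C E K (r + 1) (fun i => φ (y i)) F hF (fun g => by
    rw [← hker g, ← comp_aeval_apply]
    exact map_eq_zero φ) G hkerG
  refine ⟨fun i => φ (y i), F, W, H, G, c, htopy, hFd, hG, hc, hc0, hkerG, hWd, ?_, hHd, ?_⟩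
  · rw [hev]
    exact (_root_.map_ne_zero φ).2 hW
  · intro b
    rw [hev, hev, hH b, map_mul, map_pow]

end poly

section step

variable {k C E K L : Type u} [Field C] [Field E] [Field K] [Field L] [Algebra C E]
  [Algebra C K] [Algebra E K] [IsScalarTower C E K] [Algebra C L] (φ : L →ₐ[C] K)

/-- **Families of varieties of bounded degree** over a subfield of boundary functions. -/
theorem step2_rms [CommRing k] [IsNoetherianRing k] [Algebra k E] [Algebra k K]
    [IsScalarTower k E K] [CharZero C] (hkfl : S_kfl.{u}) (hsqf : S_sqf.{u}) (hrhc : S_rhc.{u})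
    (S : Set E) (hS : RMS k E S) (hCS : ∀ c : C, c ≠ 0 → algebraMap C E c ∈ S)
    (hS0 : ∀ z ∈ S, z ≠ 0)
    {N : ℕ} (x : Fin N → L) (htop : IntermediateField.adjoin C (Set.range x) = ⊤)
    (htopE : IntermediateField.adjoin E (Set.range fun i => φ (x i)) = ⊤)
    (r : ℕ) (htr : Algebra.trdeg C L = r) (htrE : Algebra.trdeg E K = r) (δ C0 d : ℕ) (hd : 1 ≤ d)
    (hδ : ∀ t : ℕ, r.factorial * Module.finrank C (img C x t) ≤ δ * (t + C0) ^ r)
    (hchar : IsUnit ((Nat.factorial ((d * δ) ^ 2 ^ r) : ℕ) : k)) :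
    RMS k K (ext φ S x d) := by
  classical
  intro A _ h hh
  choose g P hg hP hP0 hgP using fun a => ext_family φ S hCS x d (hh a)
  have hδ1 : 1 ≤ δ := one_le_of_growth x r δ C0 hδ
  have hD1 : 1 ≤ d * δ := Nat.mul_pos hd hδ1
  have hδD : δ ≤ d * δ := Nat.le_mul_of_pos_left δ hd
  obtain ⟨y, F, W, H, G, c, hytop, hFd, hG, hFG, hc, hker, hWd, hW, hHd, hH⟩ := step2_poly φ hkfl
    hsqf x htop htopE r htr htrE δ C0 hδ d A P hP
  obtain ⟨T, I, hT, hI, M, hFr, hM, hMg⟩ := hrhc k C E K S hS hCS (r + 1) (d * δ) hD1 hchar y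
    hytop F (hFd.trans hδD) G c hG hFG hc hker (Option A) A (fun o => o.elim W H) g
    (by
      rintro (_ | b)
      · exact hW
      · change aeval y (map (algebraMap C E) (H b)) ≠ 0
        rw [hH b]
        exact mul_ne_zero (hP0 b) (pow_ne_zero _ hW))
    (by
      rintro (_ | b)
      · exact hWd.trans hδD
      · exact hHd b) hg (fun i => hS0 _ (hg i))
  refine ⟨T, I, hT, hI, M, hFr, fun a => ?_⟩
  have h1 : h a = algebraMap E K (g a) * (aeval y (map (algebraMap C E) (H a)) *
      (aeval y (map (algebraMap C E) W) ^ d)⁻¹) := by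
    rw [hgP a, hH a, mul_assoc (φ (aeval x (P a))), mul_inv_cancel₀ (pow_ne_zero _ hW), mul_one]
  rw [h1]
  exact (hMg a).mul ((hM (some a)).mul ((hM none).pow d).inv)

end step

section fam

variable {k C E K : Type u} [Field C] [Field E] [Field K] [Algebra C E]
  [Algebra C K] [Algebra E K] [IsScalarTower C E K]

lemma finrank_img_comp {L : Type u} [Field L] [Algebra C L] (φ : L →ₐ[C] K) {N : ℕ}
    (x : Fin N → L) (t : ℕ) :
    Module.finrank C (img C (fun i => φ (x i)) t) = Module.finrank C (img C x t) := by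
  have h1 : img C (fun i => φ (x i)) t = (img C x t).map φ.toLinearMap := by
    unfold img
    rw [← Submodule.map_comp]
    congr 1
    apply LinearMap.ext
    intro g
    exact (comp_aeval_apply x φ g).symm
  rw [h1]
  exact (Submodule.equivMapOfInjective φ.toLinearMap φ.injective _).finrank_eq.symm

/-- **Families of varieties of bounded degree** over a subfield of boundary functions. -/
theorem fam_rms [CommRing k] [IsNoetherianRing k] [Algebra k E] [Algebra k K]
    [IsScalarTower k E K] [CharZero C] (hkfl : S_kfl.{u}) (hsqf : S_sqf.{u}) (hrhc : S_rhc.{u})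
    (P : Set E) (hS : RMS k E {z | z ∈ P ∧ z ≠ 0}) (hCP : ∀ c : C, algebraMap C E c ∈ P)
    {N : ℕ} (y : Fin N → K) (htopE : IntermediateField.adjoin E (Set.range y) = ⊤)
    (r : ℕ) (htr : Algebra.trdeg C (IntermediateField.adjoin C (Set.range y)) = r)
    (htrE : Algebra.trdeg E K = r) (δ C0 d : ℕ) (hd : 1 ≤ d)
    (hδ : ∀ t : ℕ, r.factorial * Module.finrank C (img C y t) ≤ δ * (t + C0) ^ r)
    (hchar : IsUnit ((Nat.factorial ((d * δ) ^ 2 ^ r) : ℕ) : k)) :
    RMS k K {z | (z ∈ algebraMap E K '' P ∨ ∃ G : MvPolynomial (Fin N) C, G.totalDegree ≤ d ∧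
      z = aeval y G) ∧ z ≠ 0} := by
  classical
  let L := IntermediateField.adjoin C (Set.range y)
  let x : Fin N → L := fun i => ⟨y i, IntermediateField.subset_adjoin C _ ⟨i, rfl⟩⟩
  have htop : IntermediateField.adjoin C (Set.range x) = ⊤ := by
    apply IntermediateField.lift_injective L
    rw [IntermediateField.lift_top]
    apply le_antisymm
    · exact IntermediateField.lift_le _
    · rw [IntermediateField.adjoin_le_iff]
      rintro _ ⟨i, rfl⟩
      exact ⟨x i, IntermediateField.subset_adjoin C _ ⟨i, rfl⟩, rfl⟩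
  have h1 := step2_rms (k := k) (E := E) L.val hkfl hsqf hrhc _ hS
    (fun c hc => ⟨hCP c, (_root_.map_ne_zero _).2 hc⟩) (fun z hz => hz.2) x htop htopE r htr htrE δ
    C0 d hd (fun t => by rw [← finrank_img_comp L.val x t]; exact hδ t) hchar
  intro H _ h hh
  refine h1 H h fun a => ?_
  obtain ⟨⟨s, hs, hsa⟩ | ⟨G, hG, hGa⟩, h0⟩ := hh a
  · refine Or.inl ⟨s, ⟨hs, ?_⟩, hsa.symm⟩
    rintro rfl
    apply h0
    rw [← hsa, map_zero]
  · refine Or.inr ⟨G, hG, ?_, h0⟩
    rw [hGa, comp_aeval_apply]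
    rfl

end fam

/-- Radical extensions. -/
theorem t_RAD : S_rad.{u} := by
  classical
  intro k L K _ _ _ _ _ _ _ _ P hP s w hw0 n hn hw htop H _ h hh
  choose z hzP hz using hw
  have hz0 : ∀ j, z j ≠ 0 := by
    intro j h0
    apply pow_ne_zero (n j) (hw0 j)
    rw [hz j, h0, map_zero]
  have hc : ∀ a : {a : H // h a ∈ algebraMap L K '' P}, ∃ c ∈ P, algebraMap L K c = h a := fun a =>
    a.2
  choose c hcP hca using hc
  have hc0 : ∀ a, c a ≠ 0 := by
    intro a h0
    apply (hh a).2
    rw [← hca a, h0, map_zero]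
  obtain ⟨T, I, hT, hI, M, hFr, hM⟩ := hP (Fin s ⊕ {a : H // h a ∈ algebraMap L K '' P})
    (Sum.elim z c) (by
      rintro (j | a)
      · exact ⟨hzP j, hz0 j⟩
      · exact ⟨hcP a, hc0 a⟩)
  obtain ⟨T', I', hT', hI', M', hFr', hMw, hMa⟩ := radical_tower s M hFr w hw0 htop n hn z
    (fun j => hM (Sum.inl j)) hz
  refine ⟨T', I', hT', hI', M', hFr', fun a => ?_⟩
  rcases (hh a).1 with h1 | ⟨j, hj⟩
  · rw [← hca ⟨a, h1⟩]
    exact hMa _ (hM (Sum.inr ⟨a, h1⟩))
  · rw [← hj]
    exact hMw j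

end Pool.Agent.N808.PR
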