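import Pool.Agent.N808.PR.Prod
import Pool.Agent.N808.AS.GTop
import Pool.Agent.N98.PJ.RelP
import Pool.Agent.N762.RC.Kum

/-!
Fibre products of varieties of bounded degree and their tame radical covers: models over `ℤ`, and
models over perfect fields.

helper808; built on the libraries of helper98 and helper762.
-/

set_option autoImplicit false
set_option linter.unusedVariables false
set_option linter.unusedSectionVars false

universe u

open MvPolynomial AlgebraicGeometry CategoryTheory Pool.Agent.N98 Pool.Agent.N808.RC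

namespace Pool.Agent.N808.PR

section ldj

variable {κ : Type u} [Field κ] {g : ℕ} (L : Fin g → Type u) [∀ ν, Field (L ν)]
    [∀ ν, Algebra κ (L ν)] {K : Type u} [Field K] [Algebra κ K] (φ : ∀ ν, L ν →ₐ[κ] K)

lemma ldj_of (hL : S_ldj.{u})
    (h : ∀ ν, (⨆ μ : {μ : Fin g // μ < ν}, (φ μ).fieldRange).LinearDisjoint (φ ν).fieldRange) :
    LDJ L φ := by
  intro ν m a e ha he hs
  let a' : Fin m → (φ ν).fieldRange := fun i => ⟨φ ν (a i), ⟨a i, rfl⟩⟩
  have ha' : LinearIndependent κ a' := by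
    have h2 : LinearIndependent κ ((φ ν).toLinearMap ∘ a) :=
      ha.map' _ (LinearMap.ker_eq_bot.2 (φ ν).injective)
    have h3 : (φ ν).toLinearMap ∘ a = (φ ν).fieldRange.val.toLinearMap ∘ a' := rfl
    rw [h3] at h2
    exact h2.of_comp _
  have h1 := hL κ K _ _ (h ν) m a' ha'
  rw [Fintype.linearIndependent_iff] at h1
  intro i
  have h4 := h1 (fun i => ⟨e i, he i⟩) hs i
  exact congrArg Subtype.val h4

/-- A product of an element of `κ` and of powers of polynomials of degree at most `d`, each in the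
coordinates of one of the factors. -/
def IsPr {N : Fin g → ℕ} (x : ∀ ν, Fin (N ν) → L ν) (d : ℕ) (z : K) : Prop :=
  ∃ (c : κ) (q : ℕ) (ν : Fin q → Fin g) (P : ∀ i, MvPolynomial (Fin (N (ν i))) κ) (e : Fin q → ℤ),
    (∀ i, (P i).totalDegree ≤ d) ∧
      z = algebraMap κ K c * ∏ i, (φ (ν i) (aeval (x (ν i)) (P i))) ^ e i

lemma exists_fam {N : Fin g → ℕ} (x : ∀ ν, Fin (N ν) → L ν) (d : ℕ) {B : Type} [Finite B]
    (z : B → K) (hz : ∀ b, IsPr L φ x d (z b)) (hz0 : ∀ b, z b ≠ 0) :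
    ∃ (H : Type) (_ : Finite H) (h : H → K), (∀ a, h a ∈ pol L N x d φ) ∧
      ∀ b, ∃ (q : ℕ) (β : Fin q → H) (e : Fin q → ℤ) (γ : H),
        z b = h γ * ∏ i, h (β i) ^ e i := by
  classical
  choose c q ν P e hP hzb using hz
  let f : ∀ b, Fin (q b) → K := fun b i => φ (ν b i) (aeval (x (ν b i)) (P b i))
  let h : B ⊕ (Σ b, Fin (q b)) → K := Sum.elim (fun b => algebraMap κ K (c b))
    fun s => if f s.1 s.2 = 0 then 1 else f s.1 s.2
  refine ⟨B ⊕ (Σ b, Fin (q b)), inferInstance, h, ?_, fun b =>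
    ⟨q b, fun i => Sum.inr ⟨b, i⟩, e b, Sum.inl b, ?_⟩⟩
  · rintro (b | ⟨b, i⟩)
    · refine ⟨?_, Or.inl ⟨c b, rfl⟩⟩
      intro h0
      apply hz0 b
      rw [hzb b]
      have h1 : algebraMap κ K (c b) = 0 := h0
      rw [h1, zero_mul]
    · by_cases h0 : f b i = 0
      · have h1 : h (Sum.inr ⟨b, i⟩) = 1 := if_pos h0
        rw [h1]
        exact ⟨one_ne_zero, Or.inl ⟨1, (map_one _).symm⟩⟩
      · have h1 : h (Sum.inr ⟨b, i⟩) = f b i := if_neg h0
        rw [h1]
        exact ⟨h0, Or.inr ⟨ν b i, P b i, hP b i, rfl⟩⟩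
  · rw [hzb b]
    change _ = algebraMap κ K (c b) * _
    congr 1
    refine Finset.prod_congr rfl fun i _ => ?_
    by_cases h0 : f b i = 0
    · have h1 : h (Sum.inr ⟨b, i⟩) = 1 := if_pos h0
      rw [h1, one_zpow]
      have h2 : e b i = 0 := by
        by_contra h3
        apply hz0 b
        rw [hzb b]
        refine mul_eq_zero_of_right _ (Finset.prod_eq_zero (Finset.mem_univ i) ?_)
        have h4 : φ (ν b i) (aeval (x (ν b i)) (P b i)) = 0 := h0
        rw [h4, zero_zpow _ h3]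
      rw [h2, zpow_zero]
    · have h1 : h (Sum.inr ⟨b, i⟩) = f b i := if_neg h0
      rw [h1]

end ldj

/-- Fibre products of varieties of bounded degree over fields with log regular models over
localizations of rings of integers, and their radical extensions. -/
theorem exists_pnum (hker0 : S_ker.{0}) (hhyp : S_rhyp.{0})
    {O F E K0 K : Type} [CommRing O] [IsDedekindDomain O] [Module.Finite ℤ O]
    [Field F] [Algebra O F] [IsFractionRing O F] [CharZero F] [Field E] [Algebra F E]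
    (b : ℕ)
    (hE : ∀ (ON : Type) [CommRing ON] [IsDedekindDomain ON] [Algebra ON F] [IsFractionRing ON F]
      [Algebra ON E] [IsScalarTower ON F E] [Algebra O ON] [IsScalarTower O ON F] (N : ℕ), N ≠ 0 →
      IsUnit ((N : ℕ) : ON) → b.factorial ∣ N →
      (∀ c : ON, ∃ (n : ℕ) (a : O), ((N : ℕ) : ON) ^ n * c = algebraMap O ON a) →
      IsLocalization.Away ((N : ℕ) : O) ON → RM.HasRM ON E)
    [Field K0] [Algebra E K0] [Field K]
    [Algebra K0 K] {ℓ : ℕ} (L : Fin ℓ → Type) [∀ ν, Field (L ν)] [∀ ν, Algebra E (L ν)]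
    (m : Fin ℓ → ℕ) (x : ∀ ν, Fin (m ν) → L ν) (r δ C0 : Fin ℓ → ℕ) (d : ℕ) (hd : 1 ≤ d)
    (htop : ∀ ν, IntermediateField.adjoin E (Set.range (x ν)) = ⊤)
    (htr : ∀ ν, Algebra.trdeg E (L ν) = r ν)
    (hδ : ∀ ν (t : ℕ), (r ν).factorial * Module.finrank E (img E (x ν) t) ≤
      δ ν * (t + C0 ν) ^ (r ν))
    (φ : ∀ ν, L ν →ₐ[E] K0) (hgen : (⨆ ν, (φ ν).fieldRange) = ⊤) (hld : LDJ L φ)
    {s : ℕ} (w : Fin s → K) (hw0 : ∀ j, w j ≠ 0) (n : Fin s → ℕ) (hn : ∀ j, n j ≠ 0)
    (htopw : IntermediateField.adjoin K0 (Set.range w) = ⊤)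
    (g : Fin s → K0) (hg : ∀ j, IsPr L φ x d (g j))
    (hw : ∀ j, w j ^ n j = algebraMap K0 K (g j)) :
    ∃ (X' : Scheme.{0}) (_ : IsIntegral X') (γ : X' ⟶ Spec (CommRingCat.of ℤ)),
      IsProper γ ∧
      (∀ x : X', IsUnit (((max b (Finset.univ.sup fun ν => (d * δ ν) ^ 2 ^ (r ν))).factorial *
        ∏ j, n j : ℕ) : X'.presheaf.stalk x) →
        IsRegularLocalRing (X'.presheaf.stalk x)) ∧
      Nonempty (X'.functionField ≃+* K) := by
  classical
  set D := Finset.univ.sup fun ν => (d * δ ν) ^ 2 ^ (r ν) with hD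
  have hDν : ∀ ν, (d * δ ν) ^ 2 ^ (r ν) ≤ D := fun ν =>
    Finset.le_sup (f := fun ν => (d * δ ν) ^ 2 ^ (r ν)) (Finset.mem_univ ν)
  set N := (max b D).factorial * ∏ j, n j with hN
  have hN0 : N ≠ 0 := mul_ne_zero (Nat.factorial_ne_zero _)
    (Finset.prod_ne_zero_iff.2 fun j _ => hn j)
  let ON := Localization.Away ((N : ℕ) : O)
  have hNF : algebraMap O F ((N : ℕ) : O) ≠ 0 := by
    rw [map_natCast]
    exact Nat.cast_ne_zero.2 hN0
  have hNO : ((N : ℕ) : O) ≠ 0 := fun h => hNF (by rw [h, map_zero])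
  have hle : Submonoid.powers ((N : ℕ) : O) ≤ nonZeroDivisors O :=
    powers_le_nonZeroDivisors_of_noZeroDivisors hNO
  let ψ : ON →+* F := IsLocalization.Away.lift (S := ON) ((N : ℕ) : O) (IsUnit.mk0 _ hNF)
  let _ : Algebra ON F := ψ.toAlgebra
  have h1 : IsScalarTower O ON F := IsScalarTower.of_algebraMap_eq fun a =>
    (IsLocalization.Away.lift_eq ((N : ℕ) : O) (IsUnit.mk0 _ hNF) a).symm
  have h2 : IsDomain ON := IsLocalization.isDomain_localization hle
  have h3 : IsDedekindDomain ON := IsLocalization.isDedekindDomain O hle ON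
  have h4 : IsFractionRing ON F :=
    IsFractionRing.isFractionRing_of_isDomain_of_isLocalization
      (Submonoid.powers ((N : ℕ) : O)) ON F
  let _ : Algebra ON E := ((algebraMap F E).comp ψ).toAlgebra
  have h5e : IsScalarTower ON F E := IsScalarTower.of_algebraMap_eq fun _ => rfl
  let _ : Algebra ON K0 := ((algebraMap E K0).comp (algebraMap ON E)).toAlgebra
  have h5 : IsScalarTower ON E K0 := IsScalarTower.of_algebraMap_eq fun _ => rfl
  let _ : Algebra ON K := ((algebraMap K0 K).comp (algebraMap ON K0)).toAlgebra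
  have h5' : IsScalarTower ON K0 K := IsScalarTower.of_algebraMap_eq fun _ => rfl
  let _ : Algebra O K := ((algebraMap ON K).comp (algebraMap O ON)).toAlgebra
  have h6 : IsScalarTower O ON K := IsScalarTower.of_algebraMap_eq fun _ => rfl
  have h6' : ∀ a : O, algebraMap O K a =
      algebraMap K0 K (algebraMap E K0 (algebraMap F E (algebraMap O F a))) := by
    intro a
    change algebraMap K0 K (algebraMap E K0 (algebraMap F E
      (algebraMap ON F (algebraMap O ON a)))) = _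
    rw [← IsScalarTower.algebraMap_apply O ON F]
  have h7 : Infinite E := Infinite.of_injective _ (algebraMap F E).injective
  have hu : IsUnit ((N : ℕ) : ON) := by
    have h8 := IsLocalization.Away.algebraMap_isUnit (S := ON) ((N : ℕ) : O)
    rwa [map_natCast] at h8
  have hu0 : IsUnit ((((max b D).factorial : ℕ) : ON) * ((∏ j, n j : ℕ) : ON)) := by
    rw [← Nat.cast_mul]
    exact hu
  have hu1' := isUnit_of_mul_isUnit_left hu0
  have hu1 : ∀ ν, IsUnit ((((d * δ ν) ^ 2 ^ (r ν)).factorial : ℕ) : ON) := fun ν =>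
    Pool.Agent.N808.AS.isUnit_cast_dvd (Nat.factorial_dvd_factorial
      ((hDν ν).trans (le_max_right b D))) hu1'
  have hu2 := isUnit_of_mul_isUnit_right hu0
  have hu3 : ∀ j, IsUnit ((n j : ℕ) : ON) := by
    rw [Nat.cast_prod] at hu2
    exact IsUnit.prod_univ_iff.1 hu2
  have hg0 : ∀ j, g j ≠ 0 := by
    intro j h
    apply pow_ne_zero (n j) (hw0 j)
    rw [hw j, h, map_zero]
  obtain ⟨H, hH, h, hh, hgh⟩ := exists_fam L φ x d g hg hg0
  have hbN : b.factorial ∣ N :=
    (Nat.factorial_dvd_factorial (le_max_left b D)).trans (Dvd.intro _ rfl)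
  obtain ⟨T, I, hT, hI, M, hFr, hM⟩ := prod_rms (k := ON) (κ := E) hker0 hhyp
    (hE ON N hN0 hu hbN (fun c => by
      obtain ⟨n, a, h⟩ := IsLocalization.Away.surj ((N : ℕ) : O) c
      refine ⟨n, a, ?_⟩
      rw [← h, map_natCast, mul_comm]) inferInstance) d hd ℓ L m x r δ C0 htop htr hδ hu1 K0 φ
      hgen hld H h hh
  have hgM : ∀ j, RM.IsBr M (g j) := by
    intro j
    obtain ⟨q, β, e, γ, he⟩ := hgh j
    rw [he]
    exact (hM γ).mul (Pool.Agent.N808.RC.IsBr.prod _ _ fun i _ =>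
      Pool.Agent.N808.RC.IsBr.zpow (hM (β i)) _)
  obtain ⟨T', I', hT', hI', M', hFr', -, -⟩ := radical_tower s M hFr w hw0 htopw n hu3 g hgM hw
  refine RM.exists_model_Z (O := O) (ON := ON) ?_ N ?_ ?_ M' hFr'
  · intro a b hab
    rw [h6', h6'] at hab
    exact IsFractionRing.injective O F ((algebraMap F E).injective
      ((algebraMap E K0).injective ((algebraMap K0 K).injective hab)))
  · intro c
    obtain ⟨n, a, h⟩ := IsLocalization.Away.surj ((N : ℕ) : O) c
    exact ⟨n, a, h⟩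
  · rw [h6']
    exact (_root_.map_ne_zero _).2 ((_root_.map_ne_zero _).2 ((_root_.map_ne_zero _).2 hNF))

/-- Fibre products of varieties of bounded degree over fields with log smooth models, and their
tame radical extensions. -/
theorem exists_plm (p : ℕ) [Fact p.Prime] (hker0 : S_ker.{u}) (hhyp : S_lhyp.{u})
    {k E K0 K : Type u} [Field k] [CharP k p] [Field E] [Infinite E] [Algebra k E]
    (hE : Pool.Agent.W418.LCI.HasLM k E)
    [Field K0] [Algebra E K0] [Algebra k K0] [IsScalarTower k E K0] [Field K]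
    [Algebra K0 K] [Algebra k K] [IsScalarTower k K0 K] {ℓ : ℕ} (L : Fin ℓ → Type u)
    [∀ ν, Field (L ν)] [∀ ν, Algebra E (L ν)]
    (m : Fin ℓ → ℕ) (x : ∀ ν, Fin (m ν) → L ν) (r δ C0 : Fin ℓ → ℕ) (d : ℕ) (hd : 1 ≤ d)
    (htop : ∀ ν, IntermediateField.adjoin E (Set.range (x ν)) = ⊤)
    (htr : ∀ ν, Algebra.trdeg E (L ν) = r ν)
    (hδ : ∀ ν (t : ℕ), (r ν).factorial * Module.finrank E (img E (x ν) t) ≤
      δ ν * (t + C0 ν) ^ (r ν)) (hchar : ∀ ν, (d * δ ν) ^ 2 ^ (r ν) < p)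
    (φ : ∀ ν, L ν →ₐ[E] K0) (hgen : (⨆ ν, (φ ν).fieldRange) = ⊤) (hld : LDJ L φ)
    {B : Type} [Fintype B] (Z : B → K0) (hZ0 : ∀ b, Z b ≠ 0) (hZ : ∀ b, IsPr L φ x d (Z b))
    {s : ℕ} (w : Fin s → K) (hw0 : ∀ j, w j ≠ 0) (n : Fin s → ℕ) (hn : ∀ j, ¬ p ∣ n j)
    (σ : Fin s → B) (hw : ∀ j, w j ^ n j = algebraMap K0 K (Z (σ j)))
    (htopw : IntermediateField.adjoin K0 (Set.range w) = ⊤) :
    ∃ (T I : Type) (_ : Finite T) (_ : Fintype I)
      (M : Pool.Agent.W558.LM (⊥ : Subalgebra k K) ⊤ T I),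
      Pool.Agent.W558.Frc M ∧ (∀ b, Pool.Agent.N98.IsBr M (algebraMap K0 K (Z b))) ∧
      ∀ j, Pool.Agent.N98.IsBr M (w j) := by
  classical
  obtain ⟨H, hH, h, hh, hgh⟩ := exists_fam L φ x d Z hZ hZ0
  obtain ⟨T, I, hT, hI, M, hFr, hM⟩ := prod_lms (k := k) (κ := E) hker0 hhyp hE d hd ℓ L m x r δ C0
    htop htr hδ (fun ν => Pool.Agent.N98.factorial_ne_zero_of_lt p (Fact.out : p.Prime) (hchar ν))
    K0 φ hgen hld H h hh
  have hgM : ∀ b, Pool.Agent.N98.IsBr M (Z b) := by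
    intro b
    obtain ⟨q, β, e, γ, he⟩ := hgh b
    rw [he]
    exact (hM γ).mul (Pool.Agent.N98.IsBr.prod _ _ fun i _ =>
      Pool.Agent.N98.IsBr.zpow (hM (β i)) _)
  exact Pool.Agent.N762.RC.kummer_isBr p M hFr Z hgM w
    hw0 n (fun j h => hn j ((CharP.cast_eq_zero_iff k p (n j)).1 h))
    (fun j => Pi.single (σ j) 1) (fun j => by
      rw [hw j, Finset.prod_eq_single (σ j)]
      · rw [Pi.single_eq_same, zpow_one]
      · intro l _ hl
        rw [Pi.single_eq_of_ne hl, zpow_zero]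
      · intro h
        exact absurd (Finset.mem_univ _) h) htopw

end Pool.Agent.N808.PR
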